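import Mathlib

/-!
Order automorphisms of the rationals commuting with translation by one, and the quasimorphism
`σ ↦ σ 0` on this group, which is not at bounded distance from a homomorphism.
-/

set_option autoImplicit false

namespace Pool.Agent.H312Z.Full

/-- Increasing permutations of `ℚ` commuting with `x ↦ x + 1`. -/
def Lam : Subgroup (Equiv.Perm ℚ) where
  carrier := {σ | StrictMono σ ∧ ∀ x, σ (x + 1) = σ x + 1}
  mul_mem' := by
    rintro a b ⟨ha, ha'⟩ ⟨hb, hb'⟩
    refine ⟨fun x y h => ha (hb h), fun x => ?_⟩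
    simp [ha', hb']
  one_mem' := ⟨fun _ _ h => h, fun _ => rfl⟩
  inv_mem' := by
    rintro a ⟨ha, ha'⟩
    refine ⟨fun x y h => ?_, fun x => ?_⟩
    · apply ha.lt_iff_lt.1
      simpa using h
    · apply a.injective
      rw [ha']
      simp

theorem add_nat {σ : Equiv.Perm ℚ} (h : σ ∈ Lam) (x : ℚ) (k : ℕ) : σ (x + k) = σ x + k := by
  induction k with
  | zero => simp
  | succ k ih => rw [Nat.cast_succ, ← add_assoc, h.2, ih, add_assoc]

theorem add_int {σ : Equiv.Perm ℚ} (h : σ ∈ Lam) (x : ℚ) (k : ℤ) : σ (x + k) = σ x + k := by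
  obtain ⟨n, rfl | rfl⟩ := k.eq_nat_or_neg
  · simpa using add_nat h x n
  · have := add_nat h (x - n) n
    simp only [sub_add_cancel] at this
    push_cast
    rw [← sub_eq_add_neg, this]
    ring

theorem quasi {σ : Equiv.Perm ℚ} (h : σ ∈ Lam) (x : ℚ) : |σ x - σ 0 - x| ≤ 1 := by
  have h1 : σ ((0 : ℚ) + (⌊x⌋ : ℤ)) ≤ σ x := h.1.monotone (by simpa using Int.floor_le x)
  have h2 : σ x ≤ σ ((0 : ℚ) + ((⌊x⌋ + 1 : ℤ))) := h.1.monotone (by
    simpa using (Int.lt_floor_add_one x).le)
  rw [add_int h] at h1 h2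
  have h3 := Int.floor_le x
  have h4 := Int.lt_floor_add_one x
  push_cast at h2
  rw [abs_le]
  constructor <;> linarith

/-- A piecewise linear map. -/
def pl (x : ℚ) : ℚ := ⌊x⌋ + max (Int.fract x / 2) ((3 * Int.fract x - 1) / 2)

theorem pl_mono : StrictMono pl := by
  intro x y hxy
  unfold pl
  have hx0 := Int.fract_nonneg x
  have hx1 := Int.fract_lt_one x
  have hy0 := Int.fract_nonneg y
  have hy1 := Int.fract_lt_one y
  have ex := Int.floor_add_fract x
  have ey := Int.floor_add_fract y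
  rcases (Int.floor_mono hxy.le).eq_or_lt with h | h
  · have h' : (⌊x⌋ : ℚ) = ⌊y⌋ := by exact_mod_cast h
    have : Int.fract x < Int.fract y := by linarith
    have h2 : max (Int.fract x / 2) ((3 * Int.fract x - 1) / 2) <
        max (Int.fract y / 2) ((3 * Int.fract y - 1) / 2) :=
      max_lt_max (by linarith) (by linarith)
    linarith
  · have h' : (⌊x⌋ : ℚ) + 1 ≤ ⌊y⌋ := by exact_mod_cast h
    have h2 : max (Int.fract x / 2) ((3 * Int.fract x - 1) / 2) < 1 :=
      max_lt (by linarith) (by linarith)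
    have h3 : 0 ≤ max (Int.fract y / 2) ((3 * Int.fract y - 1) / 2) :=
      le_max_of_le_left (by linarith)
    linarith

theorem pl_of (n : ℤ) (r : ℚ) (h0 : 0 ≤ r) (h1 : r < 1) :
    pl (n + r) = n + max (r / 2) ((3 * r - 1) / 2) := by
  unfold pl
  have hf : ⌊r⌋ = 0 := Int.floor_eq_zero_iff.2 ⟨h0, h1⟩
  rw [Int.floor_intCast_add, Int.fract_intCast_add, Int.fract_eq_self.2 ⟨h0, h1⟩, hf]
  simp

theorem pl_surj : Function.Surjective pl := by
  intro y
  have hy0 := Int.fract_nonneg y
  have hy1 := Int.fract_lt_one y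
  have ey := Int.floor_add_fract y
  by_cases h : Int.fract y ≤ 1 / 4
  · refine ⟨⌊y⌋ + 2 * Int.fract y, ?_⟩
    rw [pl_of _ _ (by linarith) (by linarith), max_eq_left (by linarith)]
    linarith
  · refine ⟨⌊y⌋ + (2 * Int.fract y + 1) / 3, ?_⟩
    rw [pl_of _ _ (by linarith) (by linarith), max_eq_right (by linarith)]
    linarith

/-- The piecewise linear map as an element of the group. -/
noncomputable def plE : Lam :=
  ⟨Equiv.ofBijective pl ⟨pl_mono.injective, pl_surj⟩, pl_mono, fun x => by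
    change pl (x + 1) = pl x + 1
    unfold pl
    rw [Int.floor_add_one, Int.fract_add_one]
    push_cast
    ring⟩

/-- Translation by a quarter. -/
def tr : Lam :=
  ⟨Equiv.addRight (1 / 4 : ℚ), fun x y h => by simpa using h, fun x => by
    simp only [Equiv.coe_addRight]
    ring⟩

theorem tr_pow (k : ℕ) : ((tr ^ k : Lam) : Equiv.Perm ℚ) 0 = k / 4 := by
  induction k with
  | zero => simp
  | succ k ih =>
    rw [pow_succ', Subgroup.coe_mul, Equiv.Perm.mul_apply, ih]
    simp only [tr, Equiv.coe_addRight]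
    push_cast
    ring

theorem zero_of_bdd (t C : ℝ) (h : ∀ k : ℕ, |k * t| ≤ C) : t = 0 := by
  by_contra ht
  have hp : 0 < |t| := abs_pos.2 ht
  obtain ⟨k, hk⟩ := exists_nat_gt (C / |t|)
  have := h k
  rw [abs_mul, Nat.abs_cast] at this
  rw [div_lt_iff₀ hp] at hk
  linarith

/-- `σ ↦ σ 0` is not at bounded distance from a homomorphism. -/
theorem not_hom (F : Lam → ℝ) (hF : ∀ a b, F (a * b) = F a + F b) (C : ℝ)
    (hC : ∀ a : Lam, |F a - (((a : Equiv.Perm ℚ) 0 : ℚ) : ℝ)| ≤ C) : False := by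
  have h1 : F 1 = 0 := by
    have := hF 1 1
    rw [one_mul] at this
    linarith
  have hp : ∀ (a : Lam) (k : ℕ), F (a ^ k) = k * F a := by
    intro a k
    induction k with
    | zero => simp [h1]
    | succ k ih => rw [pow_succ, hF, ih]; push_cast; ring
  have hfix : ∀ (a : Lam) (p : ℚ), (a : Equiv.Perm ℚ) p = p → F a = 0 := by
    intro a p hap
    apply zero_of_bdd _ (C + 1)
    intro k
    have h2 : ((a ^ k : Lam) : Equiv.Perm ℚ) p = p := by
      rw [Subgroup.coe_pow]
      exact Equiv.Perm.pow_apply_eq_self_of_apply_eq_self hap k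
    have h3 := quasi (a ^ k).2 p
    rw [h2] at h3
    have h4 : |((((a ^ k : Lam) : Equiv.Perm ℚ) 0 : ℚ) : ℝ)| ≤ 1 := by
      have : |((a ^ k : Lam) : Equiv.Perm ℚ) 0| ≤ 1 := by
        rw [abs_le] at h3 ⊢
        constructor <;> linarith [h3.1, h3.2]
      exact_mod_cast this
    have h5 := hC (a ^ k)
    rw [hp] at h5
    rw [abs_le] at h4 h5 ⊢
    constructor <;> linarith [h4.1, h4.2, h5.1, h5.2]
  have e0 : F plE = 0 := hfix plE 0 (by
    change pl 0 = 0
    have := pl_of 0 0 (by norm_num) (by norm_num)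
    simp only [Int.cast_zero, zero_add] at this
    rw [this]
    norm_num)
  have e1 : F (tr * plE) = 0 := hfix _ (1 / 2) (by
    change pl (1 / 2) + 1 / 4 = 1 / 2
    have := pl_of 0 (1 / 2) (by norm_num) (by norm_num)
    simp only [Int.cast_zero, zero_add] at this
    rw [this]
    norm_num)
  have e2 : F tr = 0 := by
    rw [hF, e0] at e1
    linarith
  have : (1 / 4 : ℝ) = 0 := by
    apply zero_of_bdd _ C
    intro k
    have h5 := hC (tr ^ k)
    rw [hp, e2, tr_pow] at h5
    push_cast at h5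
    rw [mul_zero, zero_sub, abs_neg] at h5
    convert h5 using 2
    ring
  norm_num at this

end Pool.Agent.H312Z.Full
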