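import Pool.Agent.H312Z.FullA

/-!
The group of affine maps `x ↦ σ x + a` of the Cantor group, its topological full group,
invariance of the Haar measure, and high transitivity.
-/

set_option autoImplicit false

namespace Pool.Agent.H312Z.Full

open MeasureTheory Set

/-- The Cantor space. -/
abbrev K : Type := ℕ → Bool

/-- An enumeration of the rationals. -/
def en : ℚ ≃ ℕ := Denumerable.eqv ℚ

/-- The action on the Cantor space by permuting coordinates. -/
def act (σ : Equiv.Perm ℚ) (x : K) : K := fun n => x (en (σ⁻¹ (en.symm n)))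

theorem act_mul (σ τ : Equiv.Perm ℚ) (x : K) : act (σ * τ) x = act σ (act τ x) := by
  funext n
  simp [act]

theorem act_one (x : K) : act 1 x = x := by
  funext n
  simp [act]

theorem act_add (σ : Equiv.Perm ℚ) (x y : K) : act σ (x + y) = act σ x + act σ y := rfl

theorem act_cont (σ : Equiv.Perm ℚ) : Continuous (act σ) :=
  continuous_pi fun _ => continuous_apply _

theorem add_self (x : K) : x + x = 0 := by
  funext n
  change x n + x n = false
  cases x n <;> rfl

theorem add_add (x y : K) : x + y + y = x := by rw [add_assoc, add_self, add_zero]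

instance : IsTopologicalAddGroup Bool where
  continuous_add := continuous_of_discreteTopology
  continuous_neg := continuous_of_discreteTopology

/-- The affine group. -/
def Gam : Subgroup (K ≃ₜ K) where
  carrier := {γ | ∃ σ ∈ Lam, ∃ a : K, ∀ x, γ x = act σ x + a}
  mul_mem' := by
    rintro g h ⟨σ, hσ, a, hg⟩ ⟨τ, hτ, b, hh⟩
    refine ⟨σ * τ, Lam.mul_mem hσ hτ, act σ b + a, fun x => ?_⟩
    rw [Homeomorph.mul_apply, hh, hg, act_add, act_mul, add_assoc]
  one_mem' := ⟨1, Lam.one_mem, 0, fun x => by simp [act_one]⟩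
  inv_mem' := by
    rintro g ⟨σ, hσ, a, hg⟩
    refine ⟨σ⁻¹, Lam.inv_mem hσ, act σ⁻¹ a, fun x => ?_⟩
    apply g.injective
    rw [hg (act σ⁻¹ x + act σ⁻¹ a), ← act_add, ← act_mul, mul_inv_cancel, act_one, add_add]
    exact g.apply_symm_apply x

/-- The topological full group of the affine group. -/
def Gf : Subgroup (K ≃ₜ K) where
  carrier := {g | ∀ x : K, ∃ U : Set K, IsClopen U ∧ x ∈ U ∧ ∃ γ ∈ Gam, ∀ y ∈ U, g y = γ y}
  mul_mem' := by
    intro g h hg hh x
    obtain ⟨U, hU, hx, γ, hγ, e⟩ := hh x
    obtain ⟨V, hV, hy, δ, hδ, e'⟩ := hg (h x)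
    refine ⟨U ∩ h ⁻¹' V, hU.inter (hV.preimage h.continuous), ⟨hx, hy⟩, δ * γ,
      Gam.mul_mem hδ hγ, fun y hy => ?_⟩
    rw [Homeomorph.mul_apply, Homeomorph.mul_apply, e' _ hy.2, e _ hy.1]
  one_mem' := fun x => ⟨univ, isClopen_univ, trivial, 1, Gam.one_mem, fun _ _ => rfl⟩
  inv_mem' := by
    intro g hg x
    obtain ⟨U, hU, hx, γ, hγ, e⟩ := hg (g.symm x)
    refine ⟨g.symm ⁻¹' U, hU.preimage g.symm.continuous, hx, γ⁻¹, Gam.inv_mem hγ,
      fun y hy => ?_⟩
    apply γ.injective
    have := e _ hy
    rw [g.apply_symm_apply] at this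
    change γ (g.symm y) = γ (γ.symm y)
    rw [γ.apply_symm_apply, ← this]

/-- The linear maps as homeomorphisms. -/
def actH (σ : Equiv.Perm ℚ) : K ≃ₜ K where
  toFun := act σ
  invFun := act σ⁻¹
  left_inv x := by rw [← act_mul, inv_mul_cancel, act_one]
  right_inv x := by rw [← act_mul, mul_inv_cancel, act_one]
  continuous_toFun := act_cont σ
  continuous_invFun := act_cont σ⁻¹

theorem actH_mem {σ : Equiv.Perm ℚ} (h : σ ∈ Lam) : actH σ ∈ Gf := fun _ =>
  ⟨univ, isClopen_univ, trivial, actH σ, ⟨σ, h, 0, fun _ => (add_zero _).symm⟩, fun _ _ => rfl⟩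

/-- The normalised Haar measure. -/
noncomputable def mu : Measure K := Measure.addHaarMeasure ⊤

instance : Measure.IsAddHaarMeasure mu := Measure.isAddHaarMeasure_addHaarMeasure ⊤

instance : IsProbabilityMeasure mu := ⟨by
  have := Measure.addHaarMeasure_self (G := K) (K₀ := ⊤)
  simpa [mu] using this⟩

theorem map_act (σ : Equiv.Perm ℚ) : mu.map (act σ) = mu := by
  let e : K ≃+ K := { (actH σ).toEquiv with map_add' := act_add σ }
  have h1 : Measure.IsAddHaarMeasure (mu.map e) :=
    AddEquiv.isAddHaarMeasure_map mu e (act_cont σ) (act_cont σ⁻¹)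
  have h2 : IsProbabilityMeasure (mu.map e) :=
    Measure.isProbabilityMeasure_map (act_cont σ).measurable.aemeasurable
  exact Measure.isAddHaarMeasure_eq_of_isProbabilityMeasure (mu.map e) mu

theorem map_gam {γ : K ≃ₜ K} (h : γ ∈ Gam) : mu.map γ = mu := by
  obtain ⟨σ, -, a, e⟩ := h
  have : (γ : K → K) = (fun x => x + a) ∘ act σ := funext e
  rw [this, ← Measure.map_map (measurable_add_const a) (act_cont σ).measurable, map_act,
    map_add_right_eq_self]

theorem map_full {g : K ≃ₜ K} (h : g ∈ Gf) : mu.map g = mu := by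
  have h' := Gf.inv_mem h
  choose U hU hx γ hγ e using h'
  obtain ⟨t, ht⟩ := isCompact_univ.elim_finite_subcover U (fun x => (hU x).isOpen)
    (fun x _ => mem_iUnion.2 ⟨x, hx x⟩)
  apply Measure.ext_of_biUnion_eq_univ (S := (t : Set K)) (s := U) t.countable_toSet
    (univ_subset_iff.1 (by simpa using ht))
  intro x _
  ext A hA
  have hm : MeasurableSet (A ∩ U x) := hA.inter (hU x).isOpen.measurableSet
  rw [Measure.restrict_apply hA, Measure.restrict_apply hA,
    Measure.map_apply g.continuous.measurable hm]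
  have : g ⁻¹' (A ∩ U x) = (γ x).symm ⁻¹' (A ∩ U x) := by
    ext y
    constructor
    · intro hy
      have h1 := e x _ hy.2
      have h2 : g⁻¹ (g y) = y := g.symm_apply_apply y
      rw [h2] at h1
      have h3 : (γ x).symm y = g y := by
        rw [Homeomorph.symm_apply_eq]
        exact h1
      rw [mem_preimage, h3]
      exact hy
    · intro hy
      have h1 := e x _ hy.2
      rw [(γ x).apply_symm_apply] at h1
      have h3 : g y = (γ x).symm y := by
        conv_lhs => rw [← h1]
        exact g.apply_symm_apply _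
      rw [mem_preimage, h3]
      exact hy
  rw [this, ← Measure.map_apply (γ x).symm.continuous.measurable hm]
  have h4 : mu.map (γ x).symm = mu := map_gam (Gam.inv_mem (hγ x))
  rw [h4]

theorem exists_swap (x y : K) (T : Finset K) (hx : x ∉ T) (hy : y ∉ T) :
    ∃ g ∈ Gf, g x = y ∧ ∀ z ∈ T, g z = z := by
  classical
  have h1 : ∀ z : K, ∃ n : ℕ, z ∈ T → z n ≠ x n := by
    intro z
    by_cases hz : z ∈ T
    · have : z ≠ x := fun h => hx (h ▸ hz)
      obtain ⟨n, hn⟩ := Function.ne_iff.1 this
      exact ⟨n, fun _ => hn⟩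
    · exact ⟨0, fun h => (hz h).elim⟩
  have h2 : ∀ z : K, ∃ n : ℕ, z ∈ T → z n ≠ y n := by
    intro z
    by_cases hz : z ∈ T
    · have : z ≠ y := fun h => hy (h ▸ hz)
      obtain ⟨n, hn⟩ := Function.ne_iff.1 this
      exact ⟨n, fun _ => hn⟩
    · exact ⟨0, fun h => (hz h).elim⟩
  choose p hp using h1
  choose q hq using h2
  set I : Finset ℕ := T.image p ∪ T.image q with hI
  have cl : ∀ w : K, IsClopen {z : K | ∀ i ∈ I, z i = w i} := by
    intro w
    have : {z : K | ∀ i ∈ I, z i = w i} = ⋂ i ∈ I, (fun z : K => z i) ⁻¹' {w i} := by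
      ext z
      simp
    rw [this]
    exact isClopen_biInter_finset fun i _ =>
      (isClopen_discrete _).preimage (continuous_apply i)
  set D : Set K := {z : K | ∀ i ∈ I, z i = x i} ∪ {z : K | ∀ i ∈ I, z i = y i} with hD
  have hDc : IsClopen D := (cl x).union (cl y)
  have hDt : ∀ z, z ∈ D → z + (x + y) ∈ D := by
    rintro z (hz | hz)
    · right
      intro i hi
      have := hz i hi
      change z i + (x i + y i) = y i
      rw [this]
      cases x i <;> cases y i <;> rfl
    · left
      intro i hi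
      have := hz i hi
      change z i + (x i + y i) = x i
      rw [this]
      cases x i <;> cases y i <;> rfl
  let f : K → K := fun z => if z ∈ D then z + (x + y) else z
  have hf : Function.Involutive f := by
    intro z
    by_cases hz : z ∈ D
    · simp only [f, if_pos hz, if_pos (hDt z hz), add_add]
    · simp only [f, if_neg hz]
  have hc : Continuous f := by
    refine Continuous.if ?_ (continuous_add_const _) continuous_id
    intro a ha
    have : frontier {z : K | z ∈ D} = ∅ := hDc.frontier_eq
    rw [this] at ha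
    exact ha.elim
  let g : K ≃ₜ K := ⟨hf.toPerm f, hc, hc⟩
  have hg : ∀ z, g z = f z := fun _ => rfl
  refine ⟨g, fun z => ?_, ?_, fun z hz => ?_⟩
  · by_cases hz : z ∈ D
    · refine ⟨D, hDc, hz, Homeomorph.addRight (x + y),
        ⟨1, Lam.one_mem, x + y, fun w => by rw [act_one]; rfl⟩, fun w hw => ?_⟩
      rw [hg]
      simp only [f, if_pos hw]
      rfl
    · refine ⟨Dᶜ, hDc.compl, hz, 1, Gam.one_mem, fun w hw => ?_⟩
      rw [hg]
      simp only [f, if_neg hw]
      rfl
  · have : x ∈ D := Or.inl fun _ _ => rfl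
    rw [hg]
    simp only [f, if_pos this]
    rw [← add_assoc, add_self, zero_add]
  · have : z ∉ D := by
      rintro (h | h)
      · exact hp z hz (h _ (Finset.mem_union_left _ (Finset.mem_image_of_mem p hz)))
      · exact hq z hz (h _ (Finset.mem_union_right _ (Finset.mem_image_of_mem q hz)))
    rw [hg]
    simp only [f, if_neg this]

theorem highly (n : ℕ) : ∀ (a b : Fin n → K), Function.Injective a → Function.Injective b →
    ∃ g ∈ Gf, ∀ i, g (a i) = b i := by
  classical
  induction n with
  | zero => exact fun _ _ _ _ => ⟨1, Gf.one_mem, fun i => i.elim0⟩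
  | succ n ih =>
    intro a b ha hb
    obtain ⟨g, hg, e⟩ := ih (fun i => a i.succ) (fun i => b i.succ)
      (ha.comp (Fin.succ_injective n)) (hb.comp (Fin.succ_injective n))
    obtain ⟨s, hs, e1, e2⟩ := exists_swap (g (a 0)) (b 0)
      (Finset.univ.image fun i : Fin n => b i.succ) (by
        intro h
        obtain ⟨i, -, hi⟩ := Finset.mem_image.1 h
        rw [← e i] at hi
        exact Fin.succ_ne_zero i (ha (g.injective hi))) (by
        intro h
        obtain ⟨i, -, hi⟩ := Finset.mem_image.1 h
        exact Fin.succ_ne_zero i (hb hi))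
    refine ⟨s * g, Gf.mul_mem hs hg, fun i => ?_⟩
    rw [Homeomorph.mul_apply]
    refine Fin.cases e1 (fun j => ?_) i
    rw [e j]
    exact e2 _ (Finset.mem_image_of_mem _ (Finset.mem_univ j))

end Pool.Agent.H312Z.Full
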