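import Pool.Agent.H312Z.FullB

/-!
Averaging the quasimorphism over the orbit cocycle gives a quasimorphism on the full group.
-/

set_option autoImplicit false

namespace Pool.Agent.H312Z.Full

open MeasureTheory Set

/-- Near `x` the map `g` is affine with linear part `σ`. -/
def Loc (g : K ≃ₜ K) (x : K) (σ : Equiv.Perm ℚ) : Prop :=
  σ ∈ Lam ∧ ∃ U : Set K, IsOpen U ∧ x ∈ U ∧ ∃ a : K, ∀ y ∈ U, g y = act σ y + a

theorem loc_unique {g : K ≃ₜ K} {x : K} {σ τ : Equiv.Perm ℚ} (h : Loc g x σ) (h' : Loc g x τ) :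
    σ = τ := by
  classical
  obtain ⟨hσ, U, hU, hx, a, e⟩ := h
  obtain ⟨hτ, V, hV, hx', b, e'⟩ := h'
  by_contra hne
  have hne' : σ⁻¹ ≠ τ⁻¹ := fun h => hne (inv_injective h)
  obtain ⟨q, hq⟩ : ∃ q, σ⁻¹ q ≠ τ⁻¹ q := by
    by_contra hh
    push Not at hh
    exact hne' (Equiv.ext hh)
  obtain ⟨I, u, hu, hI⟩ := isOpen_pi_iff.1 (hU.inter hV) x ⟨hx, hx'⟩
  have hinj : Function.Injective fun k : ℕ => en (σ⁻¹ q + k) := by
    intro k l hkl
    have := en.injective hkl
    exact_mod_cast add_left_cancel this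
  obtain ⟨k, hk⟩ : ∃ k : ℕ, en (σ⁻¹ q + k) ∉ I := by
    by_contra hh
    push Not at hh
    exact (Set.infinite_of_injective_forall_mem hinj (s := (I : Set ℕ)) hh) I.finite_toSet
  set m := en (σ⁻¹ q + k) with hm
  set y : K := Function.update x m (!x m) with hy
  have hyU : y ∈ U ∩ V := hI fun i hi => by
    have : i ≠ m := fun h => hk (h ▸ hi)
    rw [hy, Function.update_of_ne this]
    exact (hu i hi).2
  have s1 : σ⁻¹ (q + k) = σ⁻¹ q + k := add_nat (Lam.inv_mem hσ) q k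
  have s2 : τ⁻¹ (q + k) = τ⁻¹ q + k := add_nat (Lam.inv_mem hτ) q k
  have hm' : en (τ⁻¹ q + k) ≠ m := fun h => hq (add_right_cancel (en.injective h)).symm
  have E1 := congrFun ((e x hx).symm.trans (e' x hx')) (en (q + k))
  have E2 := congrFun ((e y hyU.1).symm.trans (e' y hyU.2)) (en (q + k))
  simp only [Pi.add_apply, act, Equiv.symm_apply_apply, s1, s2] at E1 E2
  rw [← hm] at E1 E2
  rw [hy, Function.update_self, Function.update_of_ne hm', ← E1] at E2
  revert E2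
  cases x m <;> cases a (en (q + k)) <;> decide

theorem loc_exists (g : Gf) (x : K) : ∃ σ, Loc g x σ := by
  obtain ⟨U, hU, hx, γ, ⟨σ, hσ, a, e⟩, e'⟩ := g.2 x
  exact ⟨σ, hσ, U, hU.isOpen, hx, a, fun y hy => (e' y hy).trans (e y)⟩

/-- The orbit cocycle. -/
noncomputable def coc (g : Gf) (x : K) : Equiv.Perm ℚ := (loc_exists g x).choose

theorem coc_loc (g : Gf) (x : K) : Loc g x (coc g x) := (loc_exists g x).choose_spec

theorem coc_mul (g h : Gf) (x : K) : coc (g * h) x = coc g ((h : K ≃ₜ K) x) * coc h x := by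
  apply loc_unique (coc_loc (g * h) x)
  obtain ⟨hσ, U, hU, hx, a, e⟩ := coc_loc g ((h : K ≃ₜ K) x)
  obtain ⟨hτ, V, hV, hx', b, e'⟩ := coc_loc h x
  refine ⟨Lam.mul_mem hσ hτ, V ∩ (h : K ≃ₜ K) ⁻¹' U,
    hV.inter (hU.preimage (h : K ≃ₜ K).continuous), ⟨hx', hx⟩,
    act (coc g ((h : K ≃ₜ K) x)) b + a, fun y hy => ?_⟩
  rw [Subgroup.coe_mul, Homeomorph.mul_apply, e _ hy.2, e' _ hy.1, act_add, act_mul, add_assoc]

theorem coc_lc (g : Gf) : IsLocallyConstant (coc g) := by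
  rw [IsLocallyConstant.iff_exists_open]
  intro x
  obtain ⟨hσ, U, hU, hx, a, e⟩ := coc_loc g x
  exact ⟨U, hU, hx, fun y hy => loc_unique (coc_loc g y) ⟨hσ, U, hU, hy, a, e⟩⟩

/-- The integrand. -/
noncomputable def ph (g : Gf) (x : K) : ℝ := ((coc g x 0 : ℚ) : ℝ)

theorem ph_cont (g : Gf) : Continuous (ph g) :=
  ((coc_lc g).comp fun σ : Equiv.Perm ℚ => ((σ 0 : ℚ) : ℝ)).continuous

theorem integ {f : K → ℝ} (hf : Continuous f) : Integrable f mu :=
  hf.integrable_of_hasCompactSupport (HasCompactSupport.of_compactSpace f)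

/-- The quasimorphism on the full group. -/
noncomputable def Ph (g : Gf) : ℝ := ∫ x, ph g x ∂mu

theorem Ph_quasi (g h : Gf) : |Ph (g * h) - Ph g - Ph h| ≤ 1 := by
  have hc : Continuous fun x => ph g ((h : K ≃ₜ K) x) :=
    (ph_cont g).comp (h : K ≃ₜ K).continuous
  have e1 : Ph g = ∫ x, ph g ((h : K ≃ₜ K) x) ∂mu := by
    unfold Ph
    conv_lhs => rw [← map_full h.2]
    rw [integral_map (h : K ≃ₜ K).continuous.measurable.aemeasurable
      (ph_cont g).aestronglyMeasurable]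
  rw [e1]
  unfold Ph
  have hc2 : Continuous fun x => ph (g * h) x - ph g ((h : K ≃ₜ K) x) := (ph_cont _).sub hc
  rw [← integral_sub (integ (ph_cont _)) (integ hc),
    ← integral_sub (integ hc2) (integ (ph_cont _))]
  have := norm_integral_le_of_norm_le_const (μ := mu) (C := 1)
    (f := fun x => ph (g * h) x - ph g ((h : K ≃ₜ K) x) - ph h x)
    (Filter.Eventually.of_forall fun x => by
      have hq := quasi (coc_loc g ((h : K ≃ₜ K) x)).1 (coc h x 0)
      simp only [ph, coc_mul, Equiv.Perm.mul_apply, Real.norm_eq_abs]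
      exact_mod_cast hq)
  simpa using this

/-- The linear maps in the full group. -/
def lin (σ : Lam) : Gf := ⟨actH σ, actH_mem σ.2⟩

theorem lin_mul (σ τ : Lam) : lin (σ * τ) = lin σ * lin τ := by
  apply Subtype.ext
  ext x : 1
  exact act_mul _ _ x

theorem Ph_lin (σ : Lam) : Ph (lin σ) = (((σ : Equiv.Perm ℚ) 0 : ℚ) : ℝ) := by
  have : ∀ x, coc (lin σ) x = σ := fun x =>
    loc_unique (coc_loc _ x) ⟨σ.2, univ, isOpen_univ, trivial, 0, fun y _ => (add_zero _).symm⟩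
  simp [Ph, ph, this]

theorem no_hom (F : Gf → ℝ) (hF : ∀ a b, F (a * b) = F a + F b) (C : ℝ)
    (hC : ∀ a, |F a - Ph a| ≤ C) : False :=
  not_hom (fun σ => F (lin σ)) (fun a b => by rw [lin_mul, hF]) C fun a => by
    rw [← Ph_lin]
    exact hC _

end Pool.Agent.H312Z.Full
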