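import Mathlib

/-!
Orthogonal polynomials for a positive linear functional supported on the interval from -1 to 1.
-/

set_option autoImplicit false

namespace Pool.Agent.H312Z.Orth

open Polynomial Finset

variable (L : ℝ[X] →ₗ[ℝ] ℝ)

/-- The monic orthogonal polynomials. -/
noncomputable def op : ℕ → ℝ[X]
  | 0 => 1
  | 1 => X - C (L (X * 1 * 1) / L (1 * 1))
  | (k + 2) => (X - C (L (X * op (k + 1) * op (k + 1)) / L (op (k + 1) * op (k + 1)))) * op (k + 1)
      - C (L (op (k + 1) * op (k + 1)) / L (op k * op k)) * op k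

/-- Squared norms. -/
noncomputable def hh (k : ℕ) : ℝ := L (op L k * op L k)

/-- Diagonal Jacobi parameters. -/
noncomputable def bb (k : ℕ) : ℝ := L (X * op L k * op L k) / hh L k

theorem op_succ (k : ℕ) : op L (k + 2) =
    (X - C (bb L (k + 1))) * op L (k + 1) - C (hh L (k + 1) / hh L k) * op L k := by
  rw [op]
  rfl

theorem op_one : op L 1 = X - C (bb L 0) := by
  rw [op]
  rfl

theorem op_monic (k : ℕ) : (op L k).Monic ∧ (op L k).degree = k := by
  induction k using Nat.twoStepInduction with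
  | zero => simp [op]
  | one => rw [op_one]; exact ⟨monic_X_sub_C _, degree_X_sub_C _⟩
  | more k h0 h1 =>
    have hm : ((X - C (bb L (k + 1))) * op L (k + 1)).Monic := (monic_X_sub_C _).mul h1.1
    have hd : ((X - C (bb L (k + 1))) * op L (k + 1)).degree = ((k + 2 : ℕ) : WithBot ℕ) := by
      rw [degree_mul, degree_X_sub_C, h1.2]
      norm_cast
      omega
    have hl : (C (hh L (k + 1) / hh L k) * op L k).degree <
        ((X - C (bb L (k + 1))) * op L (k + 1)).degree := by
      rw [hd, ← smul_eq_C_mul]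
      refine (degree_smul_le _ _).trans_lt ?_
      rw [h0.2]
      norm_cast
      omega
    rw [op_succ]
    exact ⟨hm.sub_of_left hl, by rw [degree_sub_eq_left_of_degree_lt hl, hd]⟩

theorem deg_sub (k : ℕ) (r : ℝ[X]) (hr : r.degree < ((k + 1 : ℕ) : WithBot ℕ)) :
    (r - C (r.coeff k) * op L k).degree < k := by
  rw [degree_lt_iff_coeff_zero] at hr ⊢
  intro m hm
  rw [coeff_sub, coeff_C_mul]
  rcases hm.eq_or_lt with h | h
  · subst h
    have : (op L k).coeff k = 1 := by
      have h1 := (op_monic L k).1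
      rw [Monic, leadingCoeff, natDegree_eq_of_degree_eq_some (op_monic L k).2] at h1
      exact h1
    rw [this]
    ring
  · rw [hr m h, coeff_eq_zero_of_degree_lt (p := op L k)
      (by rw [(op_monic L k).2]; exact_mod_cast h)]
    ring

theorem L_C (a : ℝ) (p : ℝ[X]) : L (C a * p) = a * L p := by
  rw [← smul_eq_C_mul, map_smul, smul_eq_mul]

theorem deg_X (s : ℝ[X]) (k : ℕ) (hs : s.degree < k) :
    (X * s).degree < ((k + 1 : ℕ) : WithBot ℕ) := by
  rw [degree_lt_iff_coeff_zero] at hs ⊢
  intro m hm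
  obtain ⟨j, rfl⟩ : ∃ j, m = j + 1 := ⟨m - 1, by omega⟩
  rw [coeff_X_mul]
  exact hs j (by omega)

variable {L}

theorem hh_pos (nd : ∀ p : ℝ[X], p.Monic → 0 < L (p * p)) (k : ℕ) : 0 < hh L k :=
  nd _ (op_monic L k).1

theorem orth (nd : ∀ p : ℝ[X], p.Monic → 0 < L (p * p)) (k : ℕ) :
    ∀ r : ℝ[X], r.degree < k → L (op L k * r) = 0 := by
  induction k using Nat.twoStepInduction with
  | zero =>
    intro r hr
    have : r = 0 := by
      rw [← degree_eq_bot]
      exact Nat.WithBot.lt_zero_iff.1 (by exact_mod_cast hr)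
    simp [this]
  | one =>
    intro r hr
    have : r = C (r.coeff 0) := eq_C_of_degree_le_zero (Nat.WithBot.lt_one_iff_le_zero.1 (by
      exact_mod_cast hr))
    rw [this, mul_comm, L_C, op_one, map_sub]
    have h0 := (hh_pos nd 0).ne'
    have e : L (C (bb L 0)) = L X := by
      have : L (C (bb L 0)) = bb L 0 * L 1 := by rw [← L_C, mul_one]
      rw [this, bb]
      have h1 : hh L 0 = L 1 := by simp [hh, op]
      rw [← h1, div_mul_cancel₀ _ h0]
      simp [op]
    rw [e]
    ring
  | more k h0 h1 =>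
    intro r hr
    have d1 := deg_sub L (k + 1) r hr
    have d2 := deg_sub L k _ d1
    set α := r.coeff (k + 1)
    set β := (r - C α * op L (k + 1)).coeff k
    set s := r - C α * op L (k + 1) - C β * op L k with hs
    have e : r = C α * op L (k + 1) + C β * op L k + s := by rw [hs]; ring
    have p0 := (hh_pos nd k).ne'
    have p1 := (hh_pos nd (k + 1)).ne'
    have o1 : L (op L (k + 1) * op L k) = 0 := h1 _ (by
      rw [(op_monic L k).2]; norm_cast; omega)
    have o2 : L (op L (k + 1) * (X * s)) = 0 := h1 _ (deg_X s k d2)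
    have o3 : L (op L (k + 1) * s) = 0 := h1 _ (d2.trans (by norm_cast; omega))
    have o4 : L (op L k * s) = 0 := h0 _ d2
    have o5 : L (op L (k + 1) * (X * op L k)) = hh L (k + 1) := by
      have d3 : (X * op L k - op L (k + 1)).degree < ((k + 1 : ℕ) : WithBot ℕ) := by
        have hm : (X * op L k).Monic := monic_X.mul (op_monic L k).1
        have hd : (X * op L k).degree = ((k + 1 : ℕ) : WithBot ℕ) := by
          rw [degree_mul, degree_X, (op_monic L k).2]
          norm_cast
          omega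
        rw [← hd]
        refine degree_sub_lt_left (by rw [hd, (op_monic L (k + 1)).2]) hm.ne_zero ?_
        rw [hm.leadingCoeff, (op_monic L (k + 1)).1.leadingCoeff]
      have := h1 _ d3
      rw [mul_sub, map_sub] at this
      rw [hh]
      linarith
    have o6 : L (X * op L (k + 1) * op L (k + 1)) = bb L (k + 1) * hh L (k + 1) := by
      rw [bb, div_mul_cancel₀ _ p1]
    have e2 : op L (k + 2) * r =
        C α * (X * op L (k + 1) * op L (k + 1)) + C β * (op L (k + 1) * (X * op L k))
        + op L (k + 1) * (X * s)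
        - C (bb L (k + 1) * α) * (op L (k + 1) * op L (k + 1))
        - C (bb L (k + 1) * β + hh L (k + 1) / hh L k * α) * (op L (k + 1) * op L k)
        - C (bb L (k + 1)) * (op L (k + 1) * s)
        - C (hh L (k + 1) / hh L k * β) * (op L k * op L k)
        - C (hh L (k + 1) / hh L k) * (op L k * s) := by
      rw [op_succ]
      conv_lhs => rw [e]
      simp only [C_mul, C_add]
      ring
    rw [e2]
    generalize bb L (k + 1) * β + hh L (k + 1) / hh L k * α = γ
    simp only [map_sub, map_add, L_C, o1, o2, o3, o4, o5, o6]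
    change _ - _ * hh L (k + 1) - _ - _ - _ * hh L k - _ = 0
    field_simp
    ring

theorem hh_min (pos : ∀ p : ℝ[X], 0 ≤ L (p * p)) (nd : ∀ p : ℝ[X], p.Monic → 0 < L (p * p))
    (q : ℝ[X]) (hq : q.Monic) : hh L q.natDegree ≤ L (q * q) := by
  set k := q.natDegree
  have hd : q.degree = k := degree_eq_natDegree hq.ne_zero
  have d3 : (q - op L k).degree < k := by
    rw [← hd]
    refine degree_sub_lt_left (by rw [hd, (op_monic L k).2]) hq.ne_zero ?_
    rw [hq.leadingCoeff, (op_monic L k).1.leadingCoeff]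
  have h1 := orth nd k _ d3
  have h2 := pos (q - op L k)
  have e : q * q = op L k * op L k + C 2 * (op L k * (q - op L k)) +
      (q - op L k) * (q - op L k) := by
    have : (C 2 : ℝ[X]) = 2 := rfl
    rw [this]
    ring
  rw [e, map_add, map_add, L_C, h1, hh]
  linarith

variable (L)

/-- Norms. -/
noncomputable def mm (k : ℕ) : ℝ := √(hh L k)

/-- The orthonormal polynomials. -/
noncomputable def on (k : ℕ) : ℝ[X] := C (mm L k)⁻¹ * op L k

variable {L}

theorem mm_pos (nd : ∀ p : ℝ[X], p.Monic → 0 < L (p * p)) (k : ℕ) : 0 < mm L k :=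
  Real.sqrt_pos.2 (hh_pos nd k)

theorem mm_sq (nd : ∀ p : ℝ[X], p.Monic → 0 < L (p * p)) (k : ℕ) : hh L k = mm L k ^ 2 :=
  (Real.sq_sqrt (hh_pos nd k).le).symm

theorem on_on (nd : ∀ p : ℝ[X], p.Monic → 0 < L (p * p)) (i j : ℕ) :
    L (on L i * on L j) = if i = j then 1 else 0 := by
  have e : on L i * on L j = C ((mm L i)⁻¹ * (mm L j)⁻¹) * (op L i * op L j) := by
    simp only [on, C_mul]
    ring
  rw [e, L_C]
  split_ifs with h
  · subst h
    have := (mm_pos nd i).ne'
    change _ * hh L i = 1
    rw [mm_sq nd]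
    field_simp
  · rcases lt_or_gt_of_ne h with h | h
    · rw [mul_comm (op L i), orth nd j _ (by rw [(op_monic L i).2]; exact_mod_cast h), mul_zero]
    · rw [orth nd i _ (by rw [(op_monic L j).2]; exact_mod_cast h), mul_zero]

theorem bessel (pos : ∀ p : ℝ[X], 0 ≤ L (p * p)) (nd : ∀ p : ℝ[X], p.Monic → 0 < L (p * p))
    (S : Finset ℕ) : ∀ R : ℝ[X], ∑ j ∈ S, L (R * on L j) ^ 2 ≤ L (R * R) := by
  induction S using Finset.induction_on with
  | empty => intro R; simpa using pos R
  | insert j S hj ih =>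
    intro R
    rw [sum_insert hj]
    set c := L (R * on L j) with hc
    have h1 := ih (R - C c * on L j)
    have e1 : L ((R - C c * on L j) * (R - C c * on L j)) = L (R * R) - c ^ 2 := by
      have : (R - C c * on L j) * (R - C c * on L j) =
          R * R - C (2 * c) * (R * on L j) + C (c * c) * (on L j * on L j) := by
        have : (C 2 : ℝ[X]) = 2 := rfl
        simp only [C_mul, this]
        ring
      rw [this, map_add, map_sub, L_C, L_C, on_on nd, if_pos rfl, ← hc]
      ring
    have e2 : ∀ i ∈ S, L ((R - C c * on L j) * on L i) ^ 2 = L (R * on L i) ^ 2 := by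
      intro i hi
      have : j ≠ i := fun h => hj (h ▸ hi)
      rw [sub_mul, map_sub, mul_assoc, L_C, on_on nd, if_neg this]
      ring
    rw [sum_congr rfl e2, e1] at h1
    linarith

theorem expand (nd : ∀ p : ℝ[X], p.Monic → 0 < L (p * p)) (n : ℕ) :
    ∀ P : ℝ[X], P.degree < n → P = ∑ k ∈ range n, C (L (P * on L k)) * on L k := by
  induction n with
  | zero =>
    intro r hr
    have : r = 0 := by
      rw [← degree_eq_bot]
      exact Nat.WithBot.lt_zero_iff.1 (by exact_mod_cast hr)
    simp [this]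
  | succ n ih =>
    intro P hP
    have d := deg_sub L n P hP
    set c := P.coeff n
    have hn := (mm_pos nd n).ne'
    have e0 : C c * op L n = C (c * mm L n) * on L n := by
      rw [on, ← mul_assoc, ← C_mul, mul_assoc, mul_inv_cancel₀ hn, mul_one]
    have h1 := ih _ d
    have e2 : ∀ i ∈ range n, C (L ((P - C c * op L n) * on L i)) * on L i =
        C (L (P * on L i)) * on L i := by
      intro i hi
      have : n ≠ i := (mem_range.1 hi).ne'
      rw [e0, sub_mul, map_sub, mul_assoc, L_C, on_on nd, if_neg this, mul_zero, sub_zero]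
    have e3 : L (P * on L n) = c * mm L n := by
      have o := orth nd n _ d
      have : P * on L n = C (mm L n)⁻¹ * (op L n * (P - C c * op L n)) +
          C (c * mm L n) * on L n * on L n := by
        rw [← e0, on]
        ring
      rw [this, map_add, L_C, o, mul_assoc, L_C, on_on nd, if_pos rfl]
      ring
    rw [sum_range_succ, ← sum_congr rfl e2, ← h1, e3, ← e0]
    ring

theorem three (nd : ∀ p : ℝ[X], p.Monic → 0 < L (p * p)) (j : ℕ) :
    X * on L (j + 1) = C (mm L (j + 2) / mm L (j + 1)) * on L (j + 2) +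
      C (bb L (j + 1)) * on L (j + 1) + C (mm L (j + 1) / mm L j) * on L j := by
  have h0 := (mm_pos nd j).ne'
  have h1 := (mm_pos nd (j + 1)).ne'
  have h2 := (mm_pos nd (j + 2)).ne'
  have e1 : C (mm L (j + 2) / mm L (j + 1)) * on L (j + 2) =
      C (mm L (j + 1))⁻¹ * op L (j + 2) := by
    rw [on, ← mul_assoc, ← C_mul]
    congr 2
    field_simp
  have e2 : C (mm L (j + 1) / mm L j) * on L j =
      C (mm L (j + 1))⁻¹ * (C (hh L (j + 1) / hh L j) * op L j) := by
    rw [on, ← mul_assoc, ← C_mul, ← mul_assoc, ← C_mul, mm_sq nd, mm_sq nd]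
    congr 2
    field_simp
  rw [e1, e2, op_succ, on]
  ring

theorem jacobi_sum (pos : ∀ p : ℝ[X], 0 ≤ L (p * p)) (nd : ∀ p : ℝ[X], p.Monic → 0 < L (p * p))
    (bd : ∀ p : ℝ[X], L (X * p * (X * p)) ≤ L (p * p)) (n : ℕ) (s : ℝ) (hs : s * s = 1) :
    ∑ j ∈ range n, (mm L (j + 1) / mm L j + mm L (j + 2) / mm L (j + 1) + s * bb L (j + 1)) ^ 2
      ≤ n + 2 := by
  set v : ℝ[X] := ∑ k ∈ range (n + 2), C (s ^ k) * on L k with hv
  have hs2 : ∀ k : ℕ, s ^ k * s ^ k = 1 := fun k => by rw [← mul_pow, hs, one_pow]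
  have e1 : ∀ i, i < n + 2 → L (v * on L i) = s ^ i := by
    intro i hi
    rw [hv, sum_mul, map_sum]
    simp only [mul_assoc, L_C, on_on nd, mul_ite, mul_one, mul_zero]
    rw [sum_ite_eq' (range (n + 2)) i, if_pos (mem_range.2 hi)]
  have e2 : L (v * v) = n + 2 := by
    conv_lhs => rw [hv, mul_sum, map_sum]
    have : ∀ k ∈ range (n + 2), L (v * (C (s ^ k) * on L k)) = 1 := by
      intro k hk
      rw [mul_left_comm, L_C, e1 k (mem_range.1 hk), hs2]
    rw [← hv, sum_congr rfl this]
    simp
  have h1 := bessel pos nd ((range n).image (· + 1)) (X * v)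
  rw [sum_image (fun a _ b _ h => Nat.succ_injective h)] at h1
  have h2 := bd v
  refine le_trans (le_of_eq (sum_congr rfl fun j hj => ?_)) (h1.trans (h2.trans e2.le))
  have hj' := mem_range.1 hj
  have e3 : X * v * on L (j + 1) = C (mm L (j + 2) / mm L (j + 1)) * (v * on L (j + 2)) +
      C (bb L (j + 1)) * (v * on L (j + 1)) + C (mm L (j + 1) / mm L j) * (v * on L j) := by
    rw [mul_comm X v, mul_assoc, three nd]
    ring
  rw [e3, map_add, map_add, L_C, L_C, L_C, e1 _ (by omega), e1 _ (by omega), e1 _ (by omega)]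
  have e4 : mm L (j + 2) / mm L (j + 1) * s ^ (j + 2) + bb L (j + 1) * s ^ (j + 1) +
      mm L (j + 1) / mm L j * s ^ j =
      s ^ j * (mm L (j + 1) / mm L j + mm L (j + 2) / mm L (j + 1) * (s * s) +
        s * bb L (j + 1)) := by ring
  rw [e4, hs, mul_pow, sq (s ^ j), hs2, mul_one, one_mul]

theorem mm_anti (pos : ∀ p : ℝ[X], 0 ≤ L (p * p)) (nd : ∀ p : ℝ[X], p.Monic → 0 < L (p * p))
    (bd : ∀ p : ℝ[X], L (X * p * (X * p)) ≤ L (p * p)) (k : ℕ) : mm L (k + 1) ≤ mm L k := by
  apply Real.sqrt_le_sqrt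
  have hm : (X * op L k).Monic := monic_X.mul (op_monic L k).1
  have hd : (X * op L k).natDegree = k + 1 := by
    rw [natDegree_X_mul (op_monic L k).1.ne_zero,
      natDegree_eq_of_degree_eq_some (op_monic L k).2]
  have := hh_min pos nd _ hm
  rw [hd] at this
  exact this.trans (bd _)

end Pool.Agent.H312Z.Orth
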