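import Pool.Agent.H312Z.OrthA

/-!
Regularity implies the Bernstein-Markov property, via the Jacobi parameters.
-/

set_option autoImplicit false

namespace Pool.Agent.H312Z.Orth

open Polynomial Finset

theorem grow_step (x θ β γ u v : ℝ) (hx : |x| ≤ 1) (h0 : 0 < θ) (h1 : θ ≤ 1) :
    ((2 * x - β) * u - (1 + γ) * v) ^ 2 -
        2 * ((1 - θ ^ 2) * x) * ((2 * x - β) * u - (1 + γ) * v) * u + u ^ 2 ≤
      (u ^ 2 - 2 * ((1 - θ ^ 2) * x) * u * v + v ^ 2) *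
        Real.exp (2 * ((2 * θ ^ 2 + |β| + |γ|) / θ)) := by
  set z := (1 - θ ^ 2) * x with hz
  set Q := u ^ 2 - 2 * z * u * v + v ^ 2 with hQ
  set D := 2 * θ ^ 2 + |β| + |γ| with hD
  set e := (2 * θ ^ 2 * x - β) * u - γ * v with he
  have ht : 0 < θ ^ 2 := by positivity
  have ht1 : θ ^ 2 ≤ 1 := by nlinarith
  have hz1 : |z| ≤ 1 - θ ^ 2 := by
    rw [hz, abs_mul, abs_of_nonneg (by linarith)]
    nlinarith [abs_nonneg x]
  have hQ1 : θ ^ 2 * (u ^ 2 + v ^ 2) ≤ Q := by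
    have := abs_le.1 hz1
    nlinarith [mul_nonneg (sub_nonneg.2 this.2) (sq_nonneg (u + v)),
      mul_nonneg (by linarith : 0 ≤ z + (1 - θ ^ 2)) (sq_nonneg (u - v))]
  have hQ0 : 0 ≤ Q := le_trans (by positivity) hQ1
  have hQ2 : (z * u - v) ^ 2 ≤ Q := by
    have := abs_le.1 hz1
    have h3 : z ^ 2 ≤ 1 := by nlinarith
    nlinarith [mul_nonneg (sub_nonneg.2 h3) (sq_nonneg u)]
  have hc : |2 * θ ^ 2 * x - β| ≤ 2 * θ ^ 2 + |β| := by
    refine (abs_sub _ _).trans ?_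
    rw [abs_mul, abs_of_nonneg (by positivity : 0 ≤ 2 * θ ^ 2)]
    nlinarith [abs_nonneg x]
  have he1 : e ^ 2 ≤ D ^ 2 * (u ^ 2 + v ^ 2) := by
    have a1 : e ^ 2 ≤ ((2 * θ ^ 2 * x - β) ^ 2 + γ ^ 2) * (u ^ 2 + v ^ 2) := by
      rw [he]
      nlinarith [sq_nonneg ((2 * θ ^ 2 * x - β) * v + γ * u)]
    have a2 : (2 * θ ^ 2 * x - β) ^ 2 ≤ (2 * θ ^ 2 + |β|) ^ 2 := by
      rw [← sq_abs (2 * θ ^ 2 * x - β)]
      exact pow_le_pow_left₀ (abs_nonneg _) hc 2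
    have a3 : (2 * θ ^ 2 + |β|) ^ 2 + γ ^ 2 ≤ D ^ 2 := by
      rw [hD, ← sq_abs γ]
      nlinarith [mul_nonneg (by positivity : 0 ≤ 2 * θ ^ 2 + |β|) (abs_nonneg γ)]
    exact a1.trans (mul_le_mul_of_nonneg_right (by linarith) (by positivity))
  set t := D / θ with htd
  have hD0 : 0 ≤ D := by positivity
  have ht0 : 0 ≤ t := by positivity
  have hDt : D = t * θ := by rw [htd]; field_simp
  have he2 : e ^ 2 ≤ t ^ 2 * Q := by
    rw [hDt, mul_pow, mul_assoc] at he1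
    exact he1.trans (mul_le_mul_of_nonneg_left hQ1 (by positivity))
  have he3 : e * (z * u - v) ≤ t * Q := by
    apply le_trans (le_abs_self _)
    apply abs_le_of_sq_le_sq _ (by positivity)
    rw [mul_pow, mul_pow, sq Q, ← mul_assoc]
    exact mul_le_mul he2 hQ2 (by positivity) (by positivity)
  have e1 : ((2 * x - β) * u - (1 + γ) * v) ^ 2 - 2 * z * ((2 * x - β) * u - (1 + γ) * v) * u +
      u ^ 2 = Q + 2 * (e * (z * u - v)) + e ^ 2 := by
    rw [hQ, he, hz]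
    ring
  have e2 : (1 + t) ^ 2 ≤ Real.exp (2 * t) := by
    rw [two_mul, Real.exp_add, sq]
    have := Real.add_one_le_exp t
    exact mul_le_mul (by linarith) (by linarith) (by linarith) (by positivity)
  rw [e1]
  calc Q + 2 * (e * (z * u - v)) + e ^ 2 ≤ Q * (1 + t) ^ 2 := by nlinarith
    _ ≤ _ := mul_le_mul_of_nonneg_left e2 hQ0

theorem form_ge (x θ u v : ℝ) (hx : |x| ≤ 1) (h0 : 0 < θ) (h1 : θ ≤ 1) :
    θ ^ 2 * v ^ 2 ≤ u ^ 2 - 2 * ((1 - θ ^ 2) * x) * u * v + v ^ 2 := by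
  set z := (1 - θ ^ 2) * x with hz
  have ht1 : θ ^ 2 ≤ 1 := by nlinarith
  have hz1 : |z| ≤ 1 - θ ^ 2 := by
    rw [hz, abs_mul, abs_of_nonneg (by linarith)]
    nlinarith [abs_nonneg x]
  have := abs_le.1 hz1
  nlinarith [mul_nonneg (sub_nonneg.2 this.2) (sq_nonneg (u + v)),
    mul_nonneg (by linarith : 0 ≤ z + (1 - θ ^ 2)) (sq_nonneg (u - v)),
    mul_nonneg (sq_nonneg θ) (sq_nonneg u)]

theorem phi_bound (A θ : ℝ) (h0 : 0 < A) (h2 : A ≤ 2) (hθ : 0 < θ) :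
    |A ^ 2 - 1| ≤ θ ^ 2 + 16 * (A - 1 - Real.log A) / θ ^ 2 := by
  set r := √A with hr
  have hr0 : 0 < r := Real.sqrt_pos.2 h0
  have hA : A = r ^ 2 := (Real.sq_sqrt h0.le).symm
  have hl : Real.log A = 2 * Real.log r := by
    rw [hA, Real.log_pow]
    norm_num
  have h3 := Real.log_le_sub_one_of_pos hr0
  have h4 : (r - 1) ^ 2 ≤ A - 1 - Real.log A := by rw [hl]; nlinarith
  have h5 : r ≤ 3 / 2 := by nlinarith
  have h6 : (A ^ 2 - 1) ^ 2 ≤ 64 * (r - 1) ^ 2 := by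
    have e : (A ^ 2 - 1) ^ 2 = ((A + 1) * (r + 1)) ^ 2 * (r - 1) ^ 2 := by
      have : A ^ 2 - 1 = (A + 1) * (r + 1) * (r - 1) := by
        conv_lhs => rw [hA]
        conv_rhs => rw [hA]
        ring
      rw [this]
      ring
    rw [e]
    refine mul_le_mul_of_nonneg_right ?_ (sq_nonneg _)
    have : (A + 1) * (r + 1) ≤ 8 := by nlinarith
    have h7 : 0 ≤ (A + 1) * (r + 1) := by positivity
    nlinarith
  have ht : 0 < θ ^ 2 := by positivity
  have h8 : θ ^ 2 * |A ^ 2 - 1| ≤ θ ^ 2 * (θ ^ 2 + 16 * (A - 1 - Real.log A) / θ ^ 2) := by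
    have e : θ ^ 2 * (θ ^ 2 + 16 * (A - 1 - Real.log A) / θ ^ 2) =
        θ ^ 2 * θ ^ 2 + 16 * (A - 1 - Real.log A) := by field_simp
    rw [e]
    have := sq_abs (A ^ 2 - 1)
    nlinarith [sq_nonneg (θ ^ 2 - |A ^ 2 - 1| / 2)]
  exact le_of_mul_le_mul_left h8 ht

variable (L : ℝ[X] →ₗ[ℝ] ℝ)

/-- Logarithm of the normalised norms. -/
noncomputable def ell (k : ℕ) : ℝ := Real.log (2 ^ k * mm L k)

/-- Normalised off-diagonal Jacobi parameters. -/
noncomputable def AA (k : ℕ) : ℝ := 2 * (mm L (k + 1) / mm L k)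

variable {L}

theorem AA_pos (nd : ∀ p : ℝ[X], p.Monic → 0 < L (p * p)) (k : ℕ) : 0 < AA L k := by
  have h0 := mm_pos nd k
  have h1 := mm_pos nd (k + 1)
  unfold AA
  positivity

theorem log_AA (nd : ∀ p : ℝ[X], p.Monic → 0 < L (p * p)) (k : ℕ) :
    Real.log (AA L k) = ell L (k + 1) - ell L k := by
  have h0 := mm_pos nd k
  have h1 := mm_pos nd (k + 1)
  unfold ell AA
  rw [← Real.log_div (by positivity) (by positivity)]
  congr 1
  field_simp
  ring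

theorem cesaro (pos : ∀ p : ℝ[X], 0 ≤ L (p * p)) (nd : ∀ p : ℝ[X], p.Monic → 0 < L (p * p))
    (bd : ∀ p : ℝ[X], L (X * p * (X * p)) ≤ L (p * p)) (n : ℕ) :
    ∑ j ∈ range n, (AA L j - 1 - Real.log (AA L j) + bb L (j + 1) ^ 2) ≤
      2 - (ell L (n + 1) + ell L n - ell L 1 - ell L 0) := by
  have h1 := jacobi_sum pos nd bd n 1 (by norm_num)
  have h2 := jacobi_sum pos nd bd n (-1) (by norm_num)
  have h3 : ∑ j ∈ range n, (Real.log (AA L j) + Real.log (AA L (j + 1))) =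
      ell L (n + 1) + ell L n - ell L 1 - ell L 0 := by
    induction n with
    | zero => simp
    | succ n ih =>
      rw [sum_range_succ, ih (jacobi_sum pos nd bd n 1 (by norm_num))
        (jacobi_sum pos nd bd n (-1) (by norm_num)), log_AA nd, log_AA nd]
      ring
  have h4 : ∀ j ∈ range n, 2 * (AA L j - 1 - Real.log (AA L j) + bb L (j + 1) ^ 2) +
      2 * (Real.log (AA L j) + Real.log (AA L (j + 1))) + 2 ≤
      (mm L (j + 1) / mm L j + mm L (j + 2) / mm L (j + 1) + 1 * bb L (j + 1)) ^ 2 +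
      (mm L (j + 1) / mm L j + mm L (j + 2) / mm L (j + 1) + -1 * bb L (j + 1)) ^ 2 := by
    intro j _
    have a1 := Real.log_le_sub_one_of_pos (AA_pos nd (j + 1))
    have a2 : AA L j = 2 * (mm L (j + 1) / mm L j) := rfl
    have a3 : AA L (j + 1) = 2 * (mm L (j + 2) / mm L (j + 1)) := rfl
    nlinarith [sq_nonneg (mm L (j + 1) / mm L j + mm L (j + 2) / mm L (j + 1) - 1)]
  have h5 := sum_le_sum h4
  rw [sum_add_distrib, sum_add_distrib, sum_add_distrib, ← mul_sum, ← mul_sum, h3] at h5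
  simp only [sum_const, card_range, nsmul_eq_mul] at h5
  linarith

theorem growth (pos : ∀ p : ℝ[X], 0 ≤ L (p * p)) (nd : ∀ p : ℝ[X], p.Monic → 0 < L (p * p))
    (bd : ∀ p : ℝ[X], L (X * p * (X * p)) ≤ L (p * p)) (θ : ℝ) (h0 : 0 < θ) (h1 : θ ≤ 1)
    (x : ℝ) (hx : |x| ≤ 1) (n : ℕ) :
    (2 ^ (n + 1) * (op L (n + 1)).eval x) ^ 2 -
        2 * ((1 - θ ^ 2) * x) * (2 ^ (n + 1) * (op L (n + 1)).eval x) *
          (2 ^ n * (op L n).eval x) + (2 ^ n * (op L n).eval x) ^ 2 ≤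
      (3 + 2 * |bb L 0|) ^ 2 * Real.exp (8 * θ * n + 32 / θ ^ 3 *
        ∑ j ∈ range n, (AA L j - 1 - Real.log (AA L j) + bb L (j + 1) ^ 2)) := by
  induction n with
  | zero =>
    simp only [zero_add, pow_one, pow_zero, op_one, eval_sub, eval_X, eval_C, Nat.cast_zero,
      mul_zero, range_zero, sum_empty, Real.exp_zero, mul_one]
    have e : (op L 0).eval x = 1 := by simp [op]
    rw [e]
    set y := 2 * (x - bb L 0) with hy
    have a1 : |y| ≤ 2 + 2 * |bb L 0| := by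
      rw [hy, abs_mul, abs_two]
      have := abs_sub x (bb L 0)
      linarith
    have ht1 : θ ^ 2 ≤ 1 := by nlinarith
    have a2 : |(1 - θ ^ 2) * x| ≤ 1 := by
      rw [abs_mul, abs_of_nonneg (by linarith)]
      nlinarith [abs_nonneg x, sq_nonneg θ]
    have a3 : -((1 - θ ^ 2) * x * y) ≤ |y| := by
      refine (neg_le_abs _).trans ?_
      rw [abs_mul]
      nlinarith [abs_nonneg y]
    have a4 := sq_abs y
    nlinarith [abs_nonneg y, abs_nonneg (bb L 0)]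
  | succ n ih =>
    have hA0 := AA_pos nd n
    have hA2 : AA L n ≤ 2 := by
      have := (div_le_one (mm_pos nd n)).2 (mm_anti pos nd bd n)
      unfold AA
      linarith
    have e : 2 ^ (n + 1 + 1) * (op L (n + 1 + 1)).eval x =
        (2 * x - 2 * bb L (n + 1)) * (2 ^ (n + 1) * (op L (n + 1)).eval x) -
          (1 + (AA L n ^ 2 - 1)) * (2 ^ n * (op L n).eval x) := by
      have := (mm_pos nd n).ne'
      rw [op_succ, mm_sq nd, mm_sq nd, AA]
      simp only [eval_sub, eval_mul, eval_X, eval_C]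
      field_simp
      ring
    rw [e]
    refine (grow_step x θ _ _ _ _ hx h0 h1).trans ?_
    refine (mul_le_mul_of_nonneg_right ih (Real.exp_pos _).le).trans ?_
    rw [mul_assoc, ← Real.exp_add]
    refine mul_le_mul_of_nonneg_left (Real.exp_le_exp.2 ?_) (by positivity)
    rw [sum_range_succ]
    have b1 := phi_bound _ θ hA0 hA2 h0
    have ht : 0 < θ ^ 2 := by positivity
    have b2 : |2 * bb L (n + 1)| ≤ θ ^ 2 + 16 * bb L (n + 1) ^ 2 / θ ^ 2 := by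
      have h8 : θ ^ 2 * |2 * bb L (n + 1)| ≤ θ ^ 2 * (θ ^ 2 + 16 * bb L (n + 1) ^ 2 / θ ^ 2) := by
        have e : θ ^ 2 * (θ ^ 2 + 16 * bb L (n + 1) ^ 2 / θ ^ 2) =
            θ ^ 2 * θ ^ 2 + 16 * bb L (n + 1) ^ 2 := by field_simp
        rw [e, abs_mul, abs_two]
        have := sq_abs (bb L (n + 1))
        nlinarith [sq_nonneg (θ ^ 2 - |bb L (n + 1)|), sq_nonneg (bb L (n + 1))]
      exact le_of_mul_le_mul_left h8 ht
    have b3 : 2 * ((2 * θ ^ 2 + |2 * bb L (n + 1)| + |AA L n ^ 2 - 1|) / θ) ≤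
        2 * ((2 * θ ^ 2 + (θ ^ 2 + 16 * bb L (n + 1) ^ 2 / θ ^ 2) +
          (θ ^ 2 + 16 * (AA L n - 1 - Real.log (AA L n)) / θ ^ 2)) / θ) := by
      gcongr
    have b4 : 2 * ((2 * θ ^ 2 + (θ ^ 2 + 16 * bb L (n + 1) ^ 2 / θ ^ 2) +
          (θ ^ 2 + 16 * (AA L n - 1 - Real.log (AA L n)) / θ ^ 2)) / θ) =
        8 * θ + 32 / θ ^ 3 * (AA L n - 1 - Real.log (AA L n) + bb L (n + 1) ^ 2) := by
      field_simp
      ring
    push_cast
    rw [mul_add (32 / θ ^ 3)]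
    linarith

theorem on_bound (pos : ∀ p : ℝ[X], 0 ≤ L (p * p)) (nd : ∀ p : ℝ[X], p.Monic → 0 < L (p * p))
    (bd : ∀ p : ℝ[X], L (X * p * (X * p)) ≤ L (p * p))
    (reg : ∀ δ : ℝ, 0 < δ → ∃ c : ℝ, ∀ k : ℕ, -c - δ * k ≤ ell L k) (δ : ℝ) (hδ : 0 < δ) :
    ∃ c : ℝ, 0 < c ∧ ∀ (k : ℕ) (x : ℝ), |x| ≤ 1 →
      ((on L k).eval x) ^ 2 ≤ c * Real.exp (δ * k) := by
  set θ := min 1 (δ / 24) with hθ
  have h0 : 0 < θ := lt_min one_pos (by positivity)
  have h1 : θ ≤ 1 := min_le_left _ _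
  have h2 : θ ≤ δ / 24 := min_le_right _ _
  set ε := min (δ / 6) (δ * θ ^ 3 / 192) with hε
  have e0 : 0 < ε := lt_min (by positivity) (by positivity)
  have e1 : ε ≤ δ / 6 := min_le_left _ _
  have e2 : ε ≤ δ * θ ^ 3 / 192 := min_le_right _ _
  obtain ⟨c, hc⟩ := reg ε e0
  refine ⟨(3 + 2 * |bb L 0|) ^ 2 / θ ^ 2 *
    Real.exp (32 / θ ^ 3 * (2 + 2 * c + ε + ell L 1 + ell L 0) + 2 * c), by positivity,
    fun k x hx => ?_⟩
  have g1 := (form_ge x θ _ _ hx h0 h1).trans (growth pos nd bd θ h0 h1 x hx k)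
  have g2 := cesaro pos nd bd k
  have g3 := hc k
  have g4 := hc (k + 1)
  have hm := mm_pos nd k
  have e3 : ((on L k).eval x) ^ 2 =
      (2 ^ k * (op L k).eval x) ^ 2 * Real.exp (-(2 * ell L k)) := by
    rw [Real.exp_neg, two_mul, Real.exp_add, ell, Real.exp_log (by positivity), on]
    simp only [eval_mul, eval_C]
    field_simp
  have ht : 0 < θ ^ 2 := by positivity
  have g5 : (2 ^ k * (op L k).eval x) ^ 2 ≤ (3 + 2 * |bb L 0|) ^ 2 / θ ^ 2 *
      Real.exp (8 * θ * k + 32 / θ ^ 3 *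
        ∑ j ∈ range k, (AA L j - 1 - Real.log (AA L j) + bb L (j + 1) ^ 2)) := by
    rw [div_mul_eq_mul_div, le_div_iff₀ ht]
    linarith
  rw [e3]
  refine (mul_le_mul_of_nonneg_right g5 (Real.exp_pos _).le).trans ?_
  rw [mul_assoc, ← Real.exp_add, mul_assoc ((3 + 2 * |bb L 0|) ^ 2 / θ ^ 2), ← Real.exp_add]
  refine mul_le_mul_of_nonneg_left (Real.exp_le_exp.2 ?_) (by positivity)
  have hk : (0 : ℝ) ≤ k := Nat.cast_nonneg k
  have g6 : 32 / θ ^ 3 * ∑ j ∈ range k, (AA L j - 1 - Real.log (AA L j) + bb L (j + 1) ^ 2) ≤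
      32 / θ ^ 3 * (2 + 2 * c + ε + ell L 1 + ell L 0 + 2 * ε * k) := by
    refine mul_le_mul_of_nonneg_left ?_ (by positivity)
    push_cast at g4
    linarith
  have g7 : 32 / θ ^ 3 * (2 * ε * k) ≤ δ / 3 * k := by
    rw [← mul_assoc]
    refine mul_le_mul_of_nonneg_right ?_ hk
    rw [div_mul_eq_mul_div, div_le_iff₀ (by positivity)]
    linarith
  have g8 : 8 * θ * k ≤ δ / 3 * k := mul_le_mul_of_nonneg_right (by linarith) hk
  have g9 : 2 * ε * k ≤ δ / 3 * k := mul_le_mul_of_nonneg_right (by linarith) hk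
  rw [mul_add (32 / θ ^ 3) _ (2 * ε * k)] at g6
  linarith

/-- The Bernstein-Markov property. -/
theorem bm (pos : ∀ p : ℝ[X], 0 ≤ L (p * p)) (nd : ∀ p : ℝ[X], p.Monic → 0 < L (p * p))
    (bd : ∀ p : ℝ[X], L (X * p * (X * p)) ≤ L (p * p))
    (reg : ∀ δ : ℝ, 0 < δ → ∃ c : ℝ, ∀ k : ℕ, -c - δ * k ≤ ell L k) (δ : ℝ) (hδ : 0 < δ) :
    ∃ c : ℝ, 0 < c ∧ ∀ (n : ℕ) (P : ℝ[X]), P.degree < n → ∀ x : ℝ, |x| ≤ 1 →
      (P.eval x) ^ 2 ≤ c * n * Real.exp (δ * n) * L (P * P) := by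
  obtain ⟨c, hc, h⟩ := on_bound pos nd bd reg δ hδ
  refine ⟨c, hc, fun n P hP x hx => ?_⟩
  have e : P.eval x = ∑ k ∈ range n, L (P * on L k) * (on L k).eval x := by
    conv_lhs => rw [expand nd n P hP]
    rw [eval_finsetSum]
    simp only [eval_mul, eval_C]
  have h1 := bessel pos nd (range n) P
  have h2 : ∑ k ∈ range n, ((on L k).eval x) ^ 2 ≤ c * n * Real.exp (δ * n) := by
    have : ∀ k ∈ range n, ((on L k).eval x) ^ 2 ≤ c * Real.exp (δ * n) := by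
      intro k hk
      refine (h k x hx).trans ?_
      have : (k : ℝ) ≤ n := by exact_mod_cast (mem_range.1 hk).le
      gcongr
    refine (sum_le_sum this).trans (le_of_eq ?_)
    simp only [sum_const, card_range, nsmul_eq_mul]
    ring
  rw [e]
  refine (sum_mul_sq_le_sq_mul_sq _ _ _).trans ?_
  rw [mul_comm]
  exact mul_le_mul h2 h1 (sum_nonneg fun _ _ => sq_nonneg _) (by positivity)

end Pool.Agent.H312Z.Orth
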