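import Mathlib

/-!
Thinning out the zeros of a polynomial which is small on a set.
-/

set_option autoImplicit false

namespace Pool.Agent.H312Z.Orth

open Polynomial Finset

theorem block_right (τ : ℕ → ℝ) (hτ : Monotone τ) (N m : ℕ) (x : ℝ) (hx : x ≤ τ m) :
    |x - τ m| ^ N ≤ ∏ l ∈ range N, |x - τ (m + l)| := by
  have : |x - τ m| ^ N = ∏ _l ∈ range N, |x - τ m| := by simp
  rw [this]
  refine prod_le_prod (fun _ _ => abs_nonneg _) fun l _ => ?_
  have := hτ (Nat.le_add_right m l)
  rw [abs_of_nonpos (by linarith), abs_of_nonpos (by linarith)]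
  linarith

theorem block_left (τ : ℕ → ℝ) (hτ : Monotone τ) (N m : ℕ) (x : ℝ) (hx : τ (m + N) ≤ x) :
    |x - τ (m + N)| ^ N ≤ ∏ l ∈ range N, |x - τ (m + l)| := by
  have : |x - τ (m + N)| ^ N = ∏ _l ∈ range N, |x - τ (m + N)| := by simp
  rw [this]
  refine prod_le_prod (fun _ _ => abs_nonneg _) fun l hl => ?_
  have := hτ (Nat.add_le_add_left (mem_range.1 hl).le m)
  rw [abs_of_nonneg (by linarith), abs_of_nonneg (by linarith)]
  linarith

theorem all_left (τ : ℕ → ℝ) (hτ : Monotone τ) (N : ℕ) (x : ℝ) (n : ℕ) (hx : τ (n * N) ≤ x) :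
    (∏ i ∈ range n, |x - τ ((i + 1) * N)|) ^ N ≤ ∏ l ∈ range (n * N), |x - τ l| := by
  induction n with
  | zero => simp
  | succ n ih =>
    rw [prod_range_succ, mul_pow, Nat.succ_mul n N, prod_range_add _ (n * N) N]
    rw [Nat.succ_mul] at hx
    exact mul_le_mul (ih ((hτ (Nat.le_add_right _ _)).trans hx)) (block_left τ hτ N _ x hx)
      (by positivity) (prod_nonneg fun _ _ => abs_nonneg _)

theorem thin (τ : ℕ → ℝ) (hτ : Monotone τ) (N : ℕ) (x : ℝ) (n : ℕ) :
    ∃ j, j ≤ n ∧ (∏ i ∈ range n, |x - τ ((i + 1) * N)|) ^ N *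
      ∏ l ∈ range N, |x - τ (j * N + l)| ≤ ∏ l ∈ range ((n + 1) * N), |x - τ l| := by
  induction n with
  | zero => exact ⟨0, le_rfl, by simp⟩
  | succ n ih =>
    rcases le_total x (τ ((n + 1) * N)) with h | h
    · obtain ⟨j, hj, e⟩ := ih
      refine ⟨j, by omega, ?_⟩
      rw [prod_range_succ, mul_pow, Nat.succ_mul (n + 1), prod_range_add _ ((n + 1) * N) N,
        mul_right_comm]
      exact mul_le_mul e (block_right τ hτ N _ x h) (by positivity)
        (prod_nonneg fun _ _ => abs_nonneg _)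
    · refine ⟨n + 1, le_rfl, ?_⟩
      rw [Nat.succ_mul (n + 1), prod_range_add _ ((n + 1) * N) N]
      exact mul_le_mul_of_nonneg_right (all_left τ hτ N x (n + 1) h)
        (prod_nonneg fun _ _ => abs_nonneg _)

theorem prod_div (g : ℕ → ℝ) (n N : ℕ) (hn : 0 < n) :
    ∏ l ∈ range (n * N), g (l / n) = (∏ i ∈ range N, g i) ^ n := by
  induction N with
  | zero => simp
  | succ N ih =>
    rw [Nat.mul_succ, prod_range_add, ih, prod_range_succ, mul_pow]
    congr 1
    have : ∀ l ∈ range n, g ((n * N + l) / n) = g N := by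
      intro l hl
      rw [Nat.mul_add_div hn, Nat.div_eq_of_lt (mem_range.1 hl), add_zero]
    rw [prod_congr rfl this]
    simp

theorem exists_roots (q : ℝ[X]) (hq : q.Monic) : ∃ s : ℕ → ℝ, Monotone s ∧ (∀ i, |s i| ≤ 1) ∧
    ∀ x : ℝ, |x| ≤ 1 → ∏ i ∈ range q.natDegree, |x - s i| ≤ |q.eval x| := by
  set Q := q.map (algebraMap ℝ ℂ) with hQ
  have hQm : Q.Monic := hq.map _
  have hs : Q.Splits := IsAlgClosed.splits Q
  have hcard : Q.roots.card = q.natDegree := by
    rw [← hs.natDegree_eq_card_roots, hQ, hq.natDegree_map]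
  let pr : ℂ → ℝ := fun z => max (-1) (min 1 z.re)
  have hpr : ∀ z, |pr z| ≤ 1 := fun z => abs_le.2 ⟨le_max_left _ _,
    max_le (by norm_num) (min_le_left _ _)⟩
  have hpr2 : ∀ (z : ℂ) (x : ℝ), |x| ≤ 1 → |x - pr z| ≤ ‖(x : ℂ) - z‖ := by
    intro z x hx
    have h1 := Complex.abs_re_le_norm ((x : ℂ) - z)
    simp only [Complex.sub_re, Complex.ofReal_re] at h1
    refine le_trans ?_ h1
    obtain ⟨h2, h3⟩ := abs_le.1 hx
    have h4 := le_abs_self (x - z.re)
    have h5 := neg_abs_le (x - z.re)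
    simp only [pr]
    rw [abs_le]
    rcases le_total 1 z.re with a | a
    · rw [min_eq_left a, max_eq_right (by norm_num)]
      constructor <;> linarith
    · rw [min_eq_right a]
      rcases le_total (-1) z.re with b | b
      · rw [max_eq_right b]
        constructor <;> linarith
      · rw [max_eq_left b]
        constructor <;> linarith
  set l : List ℝ := (Q.roots.map pr).sort (· ≤ ·) with hl
  have hlen : l.length = q.natDegree := by
    rw [hl, Multiset.length_sort, Multiset.card_map, hcard]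
  have hmem : ∀ y ∈ l, |y| ≤ 1 := by
    intro y hy
    rw [hl, Multiset.mem_sort, Multiset.mem_map] at hy
    obtain ⟨z, -, rfl⟩ := hy
    exact hpr z
  have hsort : l.Pairwise (· ≤ ·) := Multiset.pairwise_sort _ _
  have hb : ∀ i, |l.getD i 1| ≤ 1 := by
    intro i
    by_cases hi : i < l.length
    · rw [List.getD_eq_getElem _ _ hi]
      exact hmem _ (List.getElem_mem hi)
    · rw [List.getD_eq_default _ _ (not_lt.1 hi)]
      simp
  refine ⟨fun i => l.getD i 1, fun i j hij => ?_, hb, fun x hx => ?_⟩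
  · by_cases hj : j < l.length
    · have hi : i < l.length := lt_of_le_of_lt hij hj
      simp only
      rw [List.getD_eq_getElem _ _ hi, List.getD_eq_getElem _ _ hj]
      rcases hij.eq_or_lt with h | h
      · subst h
        exact le_rfl
      · exact List.pairwise_iff_getElem.1 hsort i j hi hj h
    · simp only
      rw [List.getD_eq_default _ _ (not_lt.1 hj)]
      exact (le_abs_self _).trans (hb i)
  · have e1 : ∏ i ∈ range q.natDegree, |x - l.getD i 1| = (l.map fun y => |x - y|).prod := by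
      rw [← hlen, ← Fin.prod_univ_eq_prod_range (fun i => |x - l.getD i 1|),
        ← List.prod_ofFn]
      congr 1
      apply List.ext_getElem
      · simp
      · intro i h1 h2
        simp only [List.getElem_ofFn, List.getElem_map]
        rw [List.getD_eq_getElem]
    have e2 : (l.map fun y => |x - y|).prod = (Q.roots.map fun z => |x - pr z|).prod := by
      rw [← Multiset.prod_coe, ← Multiset.map_coe, hl, Multiset.sort_eq, Multiset.map_map]
      rfl
    have e3 : |q.eval x| = (Q.roots.map fun z => ‖(x : ℂ) - z‖).prod := by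
      have : ((q.eval x : ℝ) : ℂ) = Q.eval (x : ℂ) := by
        rw [hQ, eval_map]
        exact (eval₂_at_apply (algebraMap ℝ ℂ) x).symm
      rw [← Real.norm_eq_abs, ← Complex.norm_real, this, hs.eval_eq_prod_roots_of_monic hQm]
      have := map_multiset_prod (normHom (α := ℂ)) (Q.roots.map fun z => (x : ℂ) - z)
      rw [Multiset.map_map] at this
      exact this
    rw [e1, e2, e3]
    exact Multiset.prod_map_le_prod_map₀ _ _ (fun _ _ => abs_nonneg _) fun z _ => hpr2 z x hx

/-- The singular kernel. -/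
noncomputable def ker (u : ℝ) : ℝ := (√|u|)⁻¹

theorem ker_nonneg (u : ℝ) : 0 ≤ ker u := by unfold ker; positivity

theorem thin_poly (q : ℝ[X]) (hq : q.Monic) (hN : 0 < q.natDegree) (n : ℕ) :
    ∃ (P : ℝ[X]) (τ : ℕ → ℝ), P.Monic ∧ P.natDegree = n ∧ (∀ l, |τ l| ≤ 1) ∧
      (∀ x : ℝ, |x| ≤ 1 → |P.eval x| ≤ 2 ^ n) ∧
      ∀ (c x : ℝ), 0 ≤ c → |x| ≤ 1 → |q.eval x| ≤ c ^ q.natDegree →
        (∀ l ∈ range ((n + 1) * q.natDegree), x ≠ τ l) →
        √|P.eval x| ≤ √c ^ (n + 1) * ((q.natDegree : ℝ)⁻¹ *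
          ∑ l ∈ range ((n + 1) * q.natDegree), ker (x - τ l)) := by
  obtain ⟨s, hs, hb, hq'⟩ := exists_roots q hq
  set N := q.natDegree with hNd
  set τ : ℕ → ℝ := fun l => s (l / (n + 1)) with hτd
  have hτ : Monotone τ := fun a b h => hs (Nat.div_le_div_right h)
  have hev : ∀ x : ℝ, |(∏ i ∈ range n, (X - C (τ ((i + 1) * N)))).eval x| =
      ∏ i ∈ range n, |x - τ ((i + 1) * N)| := by
    intro x
    rw [eval_prod, abs_prod]
    simp
  refine ⟨∏ i ∈ range n, (X - C (τ ((i + 1) * N))), τ,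
    monic_prod_of_monic _ _ fun _ _ => monic_X_sub_C _, ?_, fun l => hb _, fun x hx => ?_,
    fun c x hc hx hqx hne => ?_⟩
  · rw [natDegree_prod_of_monic _ _ fun _ _ => monic_X_sub_C _]
    simp
  · rw [hev]
    have : (2 : ℝ) ^ n = ∏ _i ∈ range n, 2 := by simp
    rw [this]
    refine prod_le_prod (fun _ _ => abs_nonneg _) fun i _ => ?_
    have := abs_sub x (τ ((i + 1) * N))
    have := hb ((i + 1) * N / (n + 1))
    linarith
  · rw [hev]
    obtain ⟨j, hj, e⟩ := thin τ hτ N x n
    set p := ∏ i ∈ range n, |x - τ ((i + 1) * N)| with hp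
    have hp0 : 0 ≤ p := prod_nonneg fun _ _ => abs_nonneg _
    have e1 : ∏ l ∈ range ((n + 1) * N), |x - τ l| ≤ (c ^ N) ^ (n + 1) := by
      have := prod_div (fun i => |x - s i|) (n + 1) N (Nat.succ_pos n)
      rw [this]
      exact pow_le_pow_left₀ (prod_nonneg fun _ _ => abs_nonneg _) ((hq' x hx).trans hqx) _
    have hlt : ∀ l ∈ range N, j * N + l ∈ range ((n + 1) * N) := by
      intro l hl
      rw [mem_range] at hl ⊢
      have := Nat.mul_le_mul_right N hj
      rw [Nat.succ_mul]
      omega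
    have hd : ∀ l ∈ range N, 0 < |x - τ (j * N + l)| := fun l hl =>
      abs_pos.2 (sub_ne_zero.2 (hne _ (hlt l hl)))
    have hNr : (0 : ℝ) < N := by exact_mod_cast hN
    have am : ∏ l ∈ range N, ker (x - τ (j * N + l)) ≤
        ((N : ℝ)⁻¹ * ∑ l ∈ range N, ker (x - τ (j * N + l))) ^ N := by
      have h1 := Real.geom_mean_le_arith_mean_weighted (range N) (fun _ => (N : ℝ)⁻¹)
        (fun l => ker (x - τ (j * N + l))) (fun _ _ => by positivity) (by
          simp only [sum_const, card_range, nsmul_eq_mul]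
          field_simp) (fun _ _ => ker_nonneg _)
      rw [← mul_sum] at h1
      refine le_trans (le_of_eq ?_) (pow_le_pow_left₀ (prod_nonneg fun _ _ =>
        Real.rpow_nonneg (ker_nonneg _) _) h1 N)
      rw [← prod_pow]
      refine prod_congr rfl fun l _ => ?_
      rw [Real.rpow_inv_natCast_pow (ker_nonneg _) hN.ne']
    have e2 : √p ^ N ≤ (√c ^ (n + 1)) ^ N * ∏ l ∈ range N, ker (x - τ (j * N + l)) := by
      have hD : 0 < ∏ l ∈ range N, √|x - τ (j * N + l)| :=
        prod_pos fun l hl => Real.sqrt_pos.2 (hd l hl)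
      simp only [ker]
      rw [prod_inv_distrib, ← div_eq_mul_inv, le_div_iff₀ hD]
      apply le_of_sq_le_sq _ (by positivity)
      have a1 : (√p ^ N * ∏ l ∈ range N, √|x - τ (j * N + l)|) ^ 2 =
          p ^ N * ∏ l ∈ range N, |x - τ (j * N + l)| := by
        rw [mul_pow, ← pow_mul, mul_comm N 2, pow_mul, Real.sq_sqrt hp0]
        congr 1
        rw [← prod_pow]
        exact prod_congr rfl fun l _ => Real.sq_sqrt (abs_nonneg _)
      have a2 : ((√c ^ (n + 1)) ^ N) ^ 2 = (c ^ N) ^ (n + 1) := by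
        calc ((√c ^ (n + 1)) ^ N) ^ 2 = ((√c ^ 2) ^ N) ^ (n + 1) := by ring
          _ = _ := by rw [Real.sq_sqrt hc]
      rw [a1, a2]
      exact e.trans e1
    have e3 : ∑ l ∈ range N, ker (x - τ (j * N + l)) ≤
        ∑ l ∈ range ((n + 1) * N), ker (x - τ l) := by
      rw [← sum_image (s := range N) (g := fun l => j * N + l) (f := fun l => ker (x - τ l))
        (fun a _ b _ h => Nat.add_left_cancel h)]
      refine sum_le_sum_of_subset_of_nonneg ?_ fun _ _ _ => ker_nonneg _
      intro m hm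
      obtain ⟨l, hl, rfl⟩ := mem_image.1 hm
      exact hlt l hl
    have hS : 0 ≤ ∑ l ∈ range N, ker (x - τ (j * N + l)) := sum_nonneg fun _ _ => ker_nonneg _
    have e4 : √p ^ N ≤ (√c ^ (n + 1) * ((N : ℝ)⁻¹ * ∑ l ∈ range N, ker (x - τ (j * N + l)))) ^ N := by
      rw [mul_pow]
      exact e2.trans (mul_le_mul_of_nonneg_left am (by positivity))
    refine (pow_le_pow_iff_left₀ (by positivity) (by positivity) hN.ne').1 e4 |>.trans ?_
    gcongr

theorem ker_int : IntervalIntegrable ker MeasureTheory.volume (-2) 2 := by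
  have h1 : IntervalIntegrable ker MeasureTheory.volume 0 2 := by
    refine (intervalIntegral.intervalIntegrable_rpow' (r := -(1 / 2)) (by norm_num)).congr ?_
    intro x hx
    rw [Set.uIoc_of_le (by norm_num)] at hx
    simp only [ker]
    rw [abs_of_pos hx.1, Real.rpow_neg hx.1.le, Real.sqrt_eq_rpow]
  have h2 : IntervalIntegrable ker MeasureTheory.volume (-2) 0 := by
    have := (IntervalIntegrable.iff_comp_neg (f := ker) (a := 0) (b := 2) (by simp)).1 h1
    simp only [neg_zero] at this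
    refine this.symm.congr fun x _ => ?_
    simp [ker]
  exact h2.trans h1

theorem ker_shift (t : ℝ) (ht : |t| ≤ 1) :
    IntervalIntegrable (fun x => ker (x - t)) MeasureTheory.volume (-1) 1 ∧
      ∫ x in (-1 : ℝ)..1, ker (x - t) ≤ ∫ x in (-2 : ℝ)..2, ker x := by
  obtain ⟨h1, h2⟩ := abs_le.1 ht
  constructor
  · have := ker_int.comp_sub_right t
    refine this.mono_set ?_
    rw [Set.uIcc_of_le (by norm_num), Set.uIcc_of_le (by linarith)]
    exact Set.Icc_subset_Icc (by linarith) (by linarith)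
  · rw [intervalIntegral.integral_comp_sub_right ker t]
    exact intervalIntegral.integral_mono_interval (by linarith) (by linarith) (by linarith)
      (Filter.Eventually.of_forall fun x => ker_nonneg x) ker_int

end Pool.Agent.H312Z.Orth
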