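import Pool.Agent.H312Z.OrthB
import Pool.Agent.H312Z.OrthC

/-!
Regular bounded weights: sets carrying most of the weight have large Chebyshev constant.
-/

set_option autoImplicit false

namespace Pool.Agent.H312Z.Orth

open Polynomial MeasureTheory Filter Topology

theorem int_poly {w : ℝ → ℝ} (hi : IntervalIntegrable w volume (-1) 1) (p : ℝ[X]) :
    IntervalIntegrable (fun x => p.eval x * w x) volume (-1) 1 :=
  hi.continuousOn_mul p.continuous.continuousOn

/-- The moment functional of a weight. -/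
noncomputable def Lw (w : ℝ → ℝ) (hi : IntervalIntegrable w volume (-1) 1) : ℝ[X] →ₗ[ℝ] ℝ where
  toFun p := ∫ x in (-1 : ℝ)..1, p.eval x * w x
  map_add' p q := by
    rw [← intervalIntegral.integral_add (int_poly hi p) (int_poly hi q)]
    simp only [eval_add, add_mul]
  map_smul' a p := by
    simp only [eval_smul, smul_eq_mul, mul_assoc, RingHom.id_apply]
    rw [intervalIntegral.integral_const_mul]

theorem Lw_sq {w : ℝ → ℝ} (hi : IntervalIntegrable w volume (-1) 1) (p : ℝ[X]) :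
    Lw w hi (p * p) = ∫ x in (-1 : ℝ)..1, (p.eval x) ^ 2 * w x := by
  simp only [Lw, LinearMap.coe_mk, AddHom.coe_mk, eval_mul, sq]

theorem int_sq {w : ℝ → ℝ} (hi : IntervalIntegrable w volume (-1) 1) (p : ℝ[X]) :
    IntervalIntegrable (fun x => (p.eval x) ^ 2 * w x) volume (-1) 1 := by
  simpa only [eval_mul, sq] using int_poly hi (p * p)

theorem Lw_pos {w : ℝ → ℝ} (hi : IntervalIntegrable w volume (-1) 1) (h0 : ∀ x, 0 ≤ w x)
    (p : ℝ[X]) : 0 ≤ Lw w hi (p * p) := by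
  rw [Lw_sq]
  exact intervalIntegral.integral_nonneg (by norm_num) fun x _ => mul_nonneg (sq_nonneg _) (h0 x)

theorem Lw_bd {w : ℝ → ℝ} (hi : IntervalIntegrable w volume (-1) 1) (h0 : ∀ x, 0 ≤ w x)
    (p : ℝ[X]) : Lw w hi (X * p * (X * p)) ≤ Lw w hi (p * p) := by
  rw [Lw_sq, Lw_sq]
  refine intervalIntegral.integral_mono_on (by norm_num) (int_sq hi _) (int_sq hi _) fun x hx => ?_
  refine mul_le_mul_of_nonneg_right ?_ (h0 x)
  rw [eval_mul, eval_X, mul_pow]
  have : x ^ 2 ≤ 1 := by nlinarith [hx.1, hx.2]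
  nlinarith [sq_nonneg (p.eval x)]

theorem Lw_nd {w : ℝ → ℝ} (hi : IntervalIntegrable w volume (-1) 1) (h0 : ∀ x, 0 ≤ w x)
    (hs : ∀ a b : ℝ, -1 ≤ a → a < b → b ≤ 1 → 0 < ∫ x in a..b, w x)
    (p : ℝ[X]) (hp : p.Monic) : 0 < Lw w hi (p * p) := by
  obtain ⟨x, hx, hx'⟩ : ∃ x ∈ Set.Ioo (-1 : ℝ) 1, p.eval x ≠ 0 := by
    by_contra hh
    push Not at hh
    exact hp.ne_zero (eq_zero_of_infinite_isRoot p
      ((Set.Ioo_infinite (by norm_num : (-1 : ℝ) < 1)).mono fun x hx => hh x hx))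
  have hc : Continuous fun y => (p.eval y) ^ 2 := p.continuous.pow 2
  have hk : 0 < (p.eval x) ^ 2 := by positivity
  have h1 : ∀ᶠ y in 𝓝 x, (p.eval x) ^ 2 / 2 < (p.eval y) ^ 2 :=
    hc.continuousAt.eventually (lt_mem_nhds (by linarith))
  have h2 : ∀ᶠ y in 𝓝 x, y ∈ Set.Ioo (-1 : ℝ) 1 := isOpen_Ioo.mem_nhds hx
  obtain ⟨r, hr, h3⟩ := Metric.eventually_nhds_iff.1 (h1.and h2)
  have hin : ∀ y ∈ Set.Icc x (x + r / 2), dist y x < r := by
    intro y hy
    rw [Real.dist_eq, abs_of_nonneg (by linarith [hy.1])]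
    linarith [hy.2]
  have hb : x + r / 2 ≤ 1 := (h3 (hin _ ⟨by linarith, le_rfl⟩)).2.2.le
  have hsub : Set.uIcc x (x + r / 2) ⊆ Set.uIcc (-1) 1 := by
    rw [Set.uIcc_of_le (by linarith), Set.uIcc_of_le (by norm_num)]
    exact Set.Icc_subset_Icc hx.1.le hb
  have h4 := hs x (x + r / 2) hx.1.le (by linarith) hb
  rw [Lw_sq]
  calc 0 < (p.eval x) ^ 2 / 2 * ∫ y in x..(x + r / 2), w y := by positivity
    _ = ∫ y in x..(x + r / 2), (p.eval x) ^ 2 / 2 * w y := by
      rw [intervalIntegral.integral_const_mul]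
    _ ≤ ∫ y in x..(x + r / 2), (p.eval y) ^ 2 * w y :=
      intervalIntegral.integral_mono_on (by linarith) ((hi.mono_set hsub).const_mul _)
        ((int_sq hi p).mono_set hsub) fun y hy =>
          mul_le_mul_of_nonneg_right (h3 (hin y hy)).1.le (h0 y)
    _ ≤ _ := intervalIntegral.integral_mono_interval hx.1.le (by linarith) hb
        (Eventually.of_forall fun y => mul_nonneg (sq_nonneg _) (h0 y)) (int_sq hi p)

theorem upper {w : ℝ → ℝ} (hi : IntervalIntegrable w volume (-1) 1) (h0 : ∀ x, 0 ≤ w x)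
    (M : ℝ) (hM : ∀ x, w x ≤ M) (B : Set ℝ) (hB : MeasurableSet B) (ε : ℝ) (hε : 0 ≤ ε)
    (hBε : volume B ≤ ENNReal.ofReal ε) (q : ℝ[X]) (hq : q.Monic) (hN : 0 < q.natDegree)
    (c : ℝ) (hc : 0 ≤ c)
    (hqc : ∀ x, |x| ≤ 1 → 0 < w x → x ∉ B → |q.eval x| ≤ c ^ q.natDegree) (n : ℕ) :
    ∃ P : ℝ[X], P.Monic ∧ P.natDegree = n ∧ ∀ S : ℝ, (∀ x, |x| ≤ 1 → |P.eval x| ≤ S) →
      Lw w hi (P * P) ≤ S * √S * M *
        (√c ^ (n + 1) * ((n + 1) * ∫ x in (-2 : ℝ)..2, ker x) + 2 ^ n * ε) := by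
  obtain ⟨P, τ, hP, hPn, hτ, hP2, hP3⟩ := thin_poly q hq hN n
  refine ⟨P, hP, hPn, fun S hS => ?_⟩
  set N := q.natDegree
  have hS0 : 0 ≤ S := (abs_nonneg _).trans (hS 0 (by simp))
  have hM0 : 0 ≤ M := (h0 0).trans (hM 0)
  have hNr : (0 : ℝ) < N := by exact_mod_cast hN
  set h : ℝ → ℝ := fun x => (N : ℝ)⁻¹ * ∑ l ∈ Finset.range ((n + 1) * N), ker (x - τ l) with hh
  have h_nn : ∀ x, 0 ≤ h x := fun x =>
    mul_nonneg (by positivity) (Finset.sum_nonneg fun _ _ => ker_nonneg _)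
  have i0 : IntervalIntegrable (fun x => ∑ l ∈ Finset.range ((n + 1) * N), ker (x - τ l))
      volume (-1) 1 := by
    have := IntervalIntegrable.sum (Finset.range ((n + 1) * N))
      (f := fun l x => ker (x - τ l)) fun l _ => (ker_shift (τ l) (hτ l)).1
    have e : (fun x => ∑ l ∈ Finset.range ((n + 1) * N), ker (x - τ l)) =
        ∑ l ∈ Finset.range ((n + 1) * N), fun x => ker (x - τ l) := by
      funext x
      simp
    rw [e]
    exact this
  have i1 : IntervalIntegrable h volume (-1) 1 := i0.const_mul _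
  have i2 : IntervalIntegrable (B.indicator (1 : ℝ → ℝ)) volume (-1) 1 := by
    have : IntervalIntegrable (fun _ : ℝ => (1 : ℝ)) volume (-1) 1 := intervalIntegrable_const
    rw [intervalIntegrable_iff] at this ⊢
    exact Integrable.indicator this hB
  have j1 : ∫ x in (-1 : ℝ)..1, h x ≤ (n + 1) * ∫ x in (-2 : ℝ)..2, ker x := by
    simp only [hh]
    rw [intervalIntegral.integral_const_mul,
      intervalIntegral.integral_finsetSum fun l _ => (ker_shift (τ l) (hτ l)).1]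
    have := Finset.sum_le_sum (s := Finset.range ((n + 1) * N))
      fun l _ => (ker_shift (τ l) (hτ l)).2
    refine (mul_le_mul_of_nonneg_left this (by positivity)).trans (le_of_eq ?_)
    simp only [Finset.sum_const, Finset.card_range, nsmul_eq_mul]
    push_cast
    field_simp
  have j2 : ∫ x in (-1 : ℝ)..1, B.indicator (1 : ℝ → ℝ) x ≤ ε := by
    rw [intervalIntegral.integral_of_le (by norm_num), integral_indicator_one hB]
    refine ENNReal.toReal_le_of_le_ofReal hε (le_trans ?_ hBε)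
    exact Measure.restrict_apply_le _ _
  have ae1 : ∀ᵐ x ∂(volume : Measure ℝ), x ∉ τ '' (Finset.range ((n + 1) * N) : Set ℕ) :=
    ((Finset.finite_toSet _).image τ).countable.ae_notMem _
  rw [Lw_sq]
  calc _ ≤ ∫ x in (-1 : ℝ)..1, S * √S * M *
        (√c ^ (n + 1) * h x + 2 ^ n * B.indicator (1 : ℝ → ℝ) x) := by
        refine intervalIntegral.integral_mono_ae_restrict (by norm_num) (int_sq hi P)
          (((i1.const_mul _).add (i2.const_mul _)).const_mul _) ?_
        rw [EventuallyLE, ae_restrict_iff' measurableSet_Icc]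
        filter_upwards [ae1] with x hx hx'
        have hx1 : |x| ≤ 1 := abs_le.2 hx'
        have hind : 0 ≤ B.indicator (1 : ℝ → ℝ) x :=
          Set.indicator_nonneg (fun _ _ => zero_le_one) x
        have hhx := h_nn x
        rcases (h0 x).eq_or_lt with hw | hw
        · rw [← hw, mul_zero]
          positivity
        have key : √|P.eval x| ≤ √c ^ (n + 1) * h x + 2 ^ n * B.indicator (1 : ℝ → ℝ) x := by
          by_cases hxB : x ∈ B
          · rw [Set.indicator_of_mem hxB, Pi.one_apply, mul_one]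
            have a1 : √|P.eval x| ≤ 2 ^ n := by
              rw [Real.sqrt_le_left (by positivity)]
              refine (hP2 x hx1).trans ?_
              have : (1 : ℝ) ≤ 2 ^ n := one_le_pow₀ (by norm_num)
              nlinarith
            have : 0 ≤ √c ^ (n + 1) * h x := by positivity
            linarith
          · rw [Set.indicator_of_notMem hxB, mul_zero, add_zero]
            exact hP3 c x hc hx1 (hqc x hx1 hw hxB) fun l hl e => hx ⟨l, hl, e.symm⟩
        have e : (P.eval x) ^ 2 = |P.eval x| * √|P.eval x| * √|P.eval x| := by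
          rw [mul_assoc, Real.mul_self_sqrt (abs_nonneg _), ← sq, sq_abs]
        rw [e, mul_right_comm]
        have := hS x hx1
        have := hM x
        gcongr
    _ = S * √S * M * (√c ^ (n + 1) * (∫ x in (-1 : ℝ)..1, h x) +
        2 ^ n * ∫ x in (-1 : ℝ)..1, B.indicator (1 : ℝ → ℝ) x) := by
        rw [intervalIntegral.integral_const_mul,
          intervalIntegral.integral_add (i1.const_mul _) (i2.const_mul _),
          intervalIntegral.integral_const_mul (√c ^ (n + 1)) h,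
          intervalIntegral.integral_const_mul (2 ^ n : ℝ)]
    _ ≤ _ := by gcongr

theorem reg_of_tendsto (m : ℕ → ℝ) (hm : ∀ k, 0 < m k)
    (h : Tendsto (fun k : ℕ => m k ^ ((1 : ℝ) / k)) atTop (𝓝 (1 / 2))) (δ : ℝ) (hδ : 0 < δ) :
    ∃ c : ℝ, ∀ k : ℕ, -c - δ * k ≤ Real.log (2 ^ k * m k) := by
  have h1 : Real.exp (-δ) / 2 < 1 / 2 := by
    have := Real.exp_lt_one_iff.2 (neg_lt_zero.2 hδ)
    linarith
  obtain ⟨k0, hk0⟩ := eventually_atTop.1 (h.eventually (lt_mem_nhds h1))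
  refine ⟨∑ k ∈ Finset.range (k0 + 1), |Real.log (2 ^ k * m k)|, fun k => ?_⟩
  have hs : 0 ≤ ∑ k ∈ Finset.range (k0 + 1), |Real.log (2 ^ k * m k)| :=
    Finset.sum_nonneg fun _ _ => abs_nonneg _
  have hk : (0 : ℝ) ≤ δ * k := by positivity
  by_cases hkk : k < k0 + 1
  · have := Finset.single_le_sum (f := fun k => |Real.log (2 ^ k * m k)|)
      (fun _ _ => abs_nonneg _) (Finset.mem_range.2 hkk)
    have h2 := neg_abs_le (Real.log (2 ^ k * m k))
    linarith
  · have hk1 : k ≠ 0 := by omega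
    have h2 := pow_le_pow_left₀ (by positivity) (hk0 k (by omega)).le k
    rw [one_div, Real.rpow_inv_natCast_pow (hm k).le hk1, div_pow,
      div_le_iff₀ (by positivity), ← Real.exp_nat_mul] at h2
    have h3 := (Real.le_log_iff_exp_le (by have := hm k; positivity)).2 h2
    rw [mul_comm (m k)] at h3
    linarith

theorem core {w : ℝ → ℝ} (hi : IntervalIntegrable w volume (-1) 1) (h0 : ∀ x, 0 ≤ w x)
    (M : ℝ) (hM : ∀ x, w x ≤ M) (nd : ∀ p : ℝ[X], p.Monic → 0 < Lw w hi (p * p))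
    (reg : ∀ δ : ℝ, 0 < δ → ∃ c : ℝ, ∀ k : ℕ, -c - δ * k ≤ ell (Lw w hi) k)
    (c : ℝ) (hc : 0 < c) (hc2 : c < 1 / 2) :
    ∃ ε : ℝ, 0 < ε ∧ ∀ B : Set ℝ, MeasurableSet B → volume B ≤ ENNReal.ofReal ε →
      ∀ q : ℝ[X], q.Monic → 0 < q.natDegree →
        ¬ ∀ x, |x| ≤ 1 → 0 < w x → x ∉ B → |q.eval x| ≤ c ^ q.natDegree := by
  set δ := -Real.log (2 * c) / 4 with hδd
  have hl : Real.log (2 * c) < 0 := Real.log_neg (by positivity) (by linarith)
  have hδ : 0 < δ := by rw [hδd]; linarith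
  obtain ⟨c1, hc1, H1⟩ := bm (Lw_pos hi h0) nd (Lw_bd hi h0) reg δ hδ
  obtain ⟨c2, H2⟩ := reg δ hδ
  set I := (∫ x in (-2 : ℝ)..2, ker x) + 1 with hI
  have hI0 : 0 ≤ ∫ x in (-2 : ℝ)..2, ker x :=
    intervalIntegral.integral_nonneg (by norm_num) fun x _ => ker_nonneg x
  have hM0 : 0 ≤ M := (h0 0).trans (hM 0)
  set ρ := Real.exp (-δ) with hρ
  have hρ1 : |ρ| < 1 := by
    rw [abs_of_pos (Real.exp_pos _)]
    exact Real.exp_lt_one_iff.2 (by linarith)
  set K := (c1 + 1) ^ 2 * M ^ 2 * I ^ 2 * Real.exp c2 + 1 with hK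
  have hK0 : 0 < K := by positivity
  have t := tendsto_pow_const_mul_const_pow_of_abs_lt_one 4 hρ1
  obtain ⟨n0, hn0⟩ := eventually_atTop.1 (t.eventually (gt_mem_nhds (inv_pos.2 hK0)))
  have hn := hn0 (n0 + 1) (Nat.le_succ _)
  set n := n0
  refine ⟨√c ^ (n + 1) / 2 ^ n, by positivity, fun B hB hBε q hq hN hqc => ?_⟩
  obtain ⟨P, hP, hPn, hup⟩ := upper hi h0 M hM B hB _ (by positivity) hBε q hq hN c hc.le hqc n
  set H := Lw w hi (P * P) with hH
  have hH0 : 0 < H := nd P hP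
  set r := √H with hr
  have hr0 : 0 < r := Real.sqrt_pos.2 hH0
  have hrH : H = r ^ 2 := (Real.sq_sqrt hH0.le).symm
  set T := (c1 + 1) * (n + 1) * Real.exp (δ * (n + 1)) with hT
  have hn0' : (0 : ℝ) ≤ n := Nat.cast_nonneg n
  have hT1 : 1 ≤ T := by
    have a1 : 1 ≤ Real.exp (δ * (n + 1)) := Real.one_le_exp (by positivity)
    have a2 : (1 : ℝ) ≤ (c1 + 1) * (n + 1) :=
      one_le_mul_of_one_le_of_one_le (by linarith) (by linarith)
    exact one_le_mul_of_one_le_of_one_le a2 a1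
  have hS : ∀ x, |x| ≤ 1 → |P.eval x| ≤ √T * r := by
    intro x hx
    have a1 := H1 (n + 1) P (by
      rw [degree_eq_natDegree hP.ne_zero, hPn]
      exact_mod_cast Nat.lt_succ_self n) x hx
    apply abs_le_of_sq_le_sq _ (by positivity)
    rw [mul_pow, Real.sq_sqrt (by linarith), ← hrH]
    refine a1.trans ?_
    push_cast
    rw [hT]
    gcongr
    linarith
  have b1 := hup _ hS
  have b2 : √c ^ (n + 1) * ((n + 1) * ∫ x in (-2 : ℝ)..2, ker x) + 2 ^ n * (√c ^ (n + 1) / 2 ^ n)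
      ≤ √c ^ (n + 1) * ((n + 1) * I) := by
    rw [mul_div_cancel₀ _ (by positivity), hI]
    have h1 : 0 ≤ √c ^ (n + 1) := by positivity
    have h2 := mul_nonneg h1 hn0'
    have h3 : √c ^ (n + 1) * ((n + 1) * ((∫ x in (-2 : ℝ)..2, ker x) + 1)) =
      √c ^ (n + 1) * ((n + 1) * ∫ x in (-2 : ℝ)..2, ker x) + √c ^ (n + 1) +
        √c ^ (n + 1) * n := by ring
    linarith
  have b3 : √(√T * r) ≤ √T * √r := by
    rw [Real.sqrt_mul (Real.sqrt_nonneg _)]
    refine mul_le_mul_of_nonneg_right (Real.sqrt_le_sqrt ?_) (Real.sqrt_nonneg _)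
    rw [Real.sqrt_le_left (by linarith), sq]
    exact le_mul_of_one_le_right (by linarith) hT1
  set Y := M * (√c ^ (n + 1) * ((n + 1) * I)) with hY
  have hY0 : 0 ≤ Y := by positivity
  have b4 : r ^ 2 ≤ (r * √r) * (T * Y) := by
    rw [← hrH]
    refine b1.trans ?_
    calc √T * r * √(√T * r) * M * _ ≤ √T * r * (√T * √r) * M * (√c ^ (n + 1) * ((n + 1) * I)) := by
          gcongr
      _ = (r * √r) * ((√T * √T) * Y) := by rw [hY]; ring
      _ = _ := by rw [Real.mul_self_sqrt (by linarith)]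
  have hsr : 0 < √r := Real.sqrt_pos.2 hr0
  have b5 : √r ≤ T * Y := by
    have : r ^ 2 = (r * √r) * √r := by
      rw [mul_assoc, Real.mul_self_sqrt hr0.le, sq]
    rw [this] at b4
    exact le_of_mul_le_mul_left b4 (by positivity)
  have b6 : r ≤ (T * Y) ^ 2 := by
    rw [← Real.sq_sqrt hr0.le]
    exact pow_le_pow_left₀ hsr.le b5 2
  have b7 : mm (Lw w hi) n ≤ r := by
    apply Real.sqrt_le_sqrt
    have := hh_min (Lw_pos hi h0) nd P hP
    rwa [hPn] at this
  have b8 : Real.exp (-c2 - δ * n) ≤ 2 ^ n * mm (Lw w hi) n :=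
    (Real.le_log_iff_exp_le (by have := mm_pos nd n; positivity)).1 (H2 n)
  have b9 : Real.exp (-c2 - δ * n) ≤ 2 ^ n * (T * Y) ^ 2 :=
    b8.trans (mul_le_mul_of_nonneg_left (b7.trans b6) (by positivity))
  have e1 : (2 * c) ^ (n + 1) = Real.exp (-(4 * δ) * (n + 1)) := by
    have : 2 * c = Real.exp (-(4 * δ)) := by
      rw [hδd, ← Real.exp_log (by positivity : 0 < 2 * c)]
      congr 1
      rw [Real.log_exp]
      ring
    rw [this, ← Real.exp_nat_mul]
    congr 1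
    push_cast
    ring
  have e2 : 2 ^ n * (T * Y) ^ 2 = (c1 + 1) ^ 2 * M ^ 2 * I ^ 2 * (n + 1) ^ 4 *
      (Real.exp (δ * (n + 1)) ^ 2 * (2 * c) ^ (n + 1)) / 2 := by
    have : (√c ^ (n + 1)) ^ 2 = c ^ (n + 1) := by
      rw [← pow_mul, mul_comm, pow_mul, Real.sq_sqrt hc.le]
    rw [hT, hY]
    simp only [mul_pow, this]
    ring
  have e3 : Real.exp (δ * (n + 1)) ^ 2 * (2 * c) ^ (n + 1) =
      ρ ^ (n + 1) * Real.exp (-δ) * (Real.exp c2 * Real.exp (-c2 - δ * n)) := by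
    rw [e1, hρ, ← Real.exp_nat_mul, ← Real.exp_nat_mul]
    simp only [← Real.exp_add]
    congr 1
    push_cast
    ring
  rw [e2, e3] at b9
  have f1 : Real.exp (-δ) ≤ 1 := Real.exp_le_one_iff.2 (by linarith)
  have f0 := Real.exp_pos (-δ)
  set E := Real.exp (-c2 - δ * n) with hE
  have hE0 : 0 < E := Real.exp_pos _
  push_cast at hn
  set Z := ((n : ℝ) + 1) ^ 4 * ρ ^ (n + 1) with hZ
  have hZ0 : 0 ≤ Z := by positivity
  have f2 : K * Z < 1 := by
    rw [← lt_div_iff₀' hK0, one_div]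
    exact hn
  have f3 : E ≤ E * ((K - 1) * Z * Real.exp (-δ) / 2) := by
    refine b9.trans (le_of_eq ?_)
    rw [hK, hZ]
    ring
  have f4 : 1 ≤ (K - 1) * Z * Real.exp (-δ) / 2 := by
    exact le_of_mul_le_mul_left (by rwa [mul_one]) hE0
  have f5 : 0 ≤ (K - 1) * Z := by
    have : 0 ≤ K - 1 := by rw [hK]; ring_nf; positivity
    positivity
  have f6 : (K - 1) * Z * Real.exp (-δ) ≤ (K - 1) * Z := mul_le_of_le_one_right f5 f1
  have f7 : (K - 1) * Z = K * Z - Z := by ring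
  linarith

end Pool.Agent.H312Z.Orth
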