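import Mathlib

/-!
Binary codes of polynomials over the field with two elements, and elimination for a chain of
parallelism conditions in a plane over a field of characteristic two.
-/

set_option autoImplicit false

namespace Pool.Agent.H312Z.Qm

open Polynomial

section Ev

variable {R : Type} [CommRing R]

/-- The value at `t` of the polynomial whose coefficients are the binary digits of `n`. -/
def ev (t : R) (n : ℕ) : R :=
  if _h : n = 0 then 0 else ((n % 2 : ℕ) : R) + t * ev t (n / 2)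
decreasing_by omega

theorem ev_zero (t : R) : ev t 0 = 0 := by rw [ev]; simp

theorem ev_eq (t : R) (n : ℕ) : ev t n = ((n % 2 : ℕ) : R) + t * ev t (n / 2) := by
  by_cases h : n = 0
  · subst h
    simp [ev_zero]
  · rw [ev, dif_neg h]

theorem ev_one (t : R) : ev t 1 = 1 := by rw [ev_eq]; simp [ev_zero]

theorem ev_two_mul (t : R) (n : ℕ) : ev t (2 * n) = t * ev t n := by
  rw [ev_eq]
  simp

theorem ev_two (t : R) : ev t 2 = t := by
  have := ev_two_mul t 1
  rwa [ev_one, mul_one, mul_one] at this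

theorem ev_xor (h2 : (2 : R) = 0) (t : R) (a b : ℕ) : ev t (a ^^^ b) = ev t a + ev t b := by
  induction a using Nat.strong_induction_on generalizing b with
  | _ a ih =>
    by_cases h : a = 0
    · subst h
      simp [ev_zero]
    rw [ev_eq t (a ^^^ b), ev_eq t a, ev_eq t b, Nat.xor_div_two, ih (a / 2) (by omega),
      Nat.xor_mod_two_eq]
    rcases Nat.mod_two_eq_zero_or_one a with ha | ha <;>
      rcases Nat.mod_two_eq_zero_or_one b with hb | hb <;>
      simp only [Nat.add_mod a b, ha, hb] <;> norm_num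
    · ring
    · ring
    · ring
    · linear_combination (-1 : R) * h2

theorem map_ev {S : Type} [CommRing S] (φ : R →+* S) (t : R) (n : ℕ) :
    φ (ev t n) = ev (φ t) n := by
  induction n using Nat.strong_induction_on with
  | _ n ih =>
    by_cases h : n = 0
    · subst h
      simp [ev_zero]
    rw [ev_eq t n, ev_eq (φ t) n, map_add, map_mul, ih (n / 2) (by omega), map_natCast]

/-- Multiplication by the variable, reduced modulo `f` when the bound `q` is reached. -/
def mx (f q a : ℕ) : ℕ := if 2 * a < q then 2 * a else (2 * a) ^^^ f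

/-- Multiplication with fuel. -/
def mulA (f q : ℕ) : ℕ → ℕ → ℕ → ℕ
  | 0, _, _ => 0
  | k + 1, a, b => if b = 0 then 0 else
      (if b % 2 = 1 then a else 0) ^^^ mulA f q k (mx f q a) (b / 2)

/-- Multiplication modulo `f`. -/
def mul (f q a b : ℕ) : ℕ := mulA f q b a b

theorem ev_mx (h2 : (2 : R) = 0) (t : R) (f q : ℕ) (hf : ev t f = 0) (a : ℕ) :
    ev t (mx f q a) = t * ev t a := by
  unfold mx
  split_ifs
  · exact ev_two_mul t a
  · rw [ev_xor h2, hf, add_zero, ev_two_mul]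

theorem ev_mulA (h2 : (2 : R) = 0) (t : R) (f q : ℕ) (hf : ev t f = 0) (k : ℕ) :
    ∀ a b, b ≤ k → ev t (mulA f q k a b) = ev t a * ev t b := by
  induction k with
  | zero =>
    intro a b hb
    obtain rfl : b = 0 := by omega
    simp [mulA, ev_zero]
  | succ k ih =>
    intro a b hb
    unfold mulA
    split_ifs with h h1
    · subst h
      simp [ev_zero]
    · rw [ev_xor h2, ih _ _ (by omega), ev_mx h2 t f q hf, ev_eq t b, h1]
      push_cast
      ring
    · rw [ev_xor h2, ih _ _ (by omega), ev_mx h2 t f q hf, ev_eq t b, ev_zero]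
      have : b % 2 = 0 := by omega
      rw [this]
      push_cast
      ring

theorem ev_mul (h2 : (2 : R) = 0) (t : R) (f q : ℕ) (hf : ev t f = 0) (a b : ℕ) :
    ev t (mul f q a b) = ev t a * ev t b := ev_mulA h2 t f q hf b a b le_rfl

/-- Repeated squaring. -/
def sqn (f q : ℕ) : ℕ → ℕ → ℕ
  | 0, a => a
  | k + 1, a => sqn f q k (mul f q a a)

theorem ev_sqn (h2 : (2 : R) = 0) (t : R) (f q : ℕ) (hf : ev t f = 0) (k : ℕ) :
    ∀ a, ev t (sqn f q k a) = ev t a ^ 2 ^ k := by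
  induction k with
  | zero => intro a; simp [sqn]
  | succ k ih =>
    intro a
    rw [sqn, ih, ev_mul h2 t f q hf, ← sq, ← pow_mul, pow_succ']

/-- Binary linear combination of eight codes. -/
def lin (c : List ℕ) (u : ℕ) : ℕ :=
  (if u.testBit 0 then c.getD 0 0 else 0) ^^^ (if u.testBit 1 then c.getD 1 0 else 0) ^^^
  (if u.testBit 2 then c.getD 2 0 else 0) ^^^ (if u.testBit 3 then c.getD 3 0 else 0) ^^^
  (if u.testBit 4 then c.getD 4 0 else 0) ^^^ (if u.testBit 5 then c.getD 5 0 else 0) ^^^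
  (if u.testBit 6 then c.getD 6 0 else 0) ^^^ (if u.testBit 7 then c.getD 7 0 else 0)

/-- The determinant of two coded vectors. -/
def det (xs ys : List ℕ) (u v : ℕ) : ℕ :=
  mul 0 0 (lin xs u) (lin ys v) ^^^ mul 0 0 (lin xs v) (lin ys u)

end Ev

theorem monic_ev (d : ℕ) : ∀ n, 2 ^ d ≤ n → n < 2 ^ (d + 1) →
    (ev (X : (ZMod 2)[X]) n).Monic ∧ (ev (X : (ZMod 2)[X]) n).natDegree = d := by
  induction d with
  | zero =>
    intro n h1 h2
    obtain rfl : n = 1 := by omega
    rw [ev_one]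
    simp
  | succ d ih =>
    intro n h1 h2
    obtain ⟨hm, hd⟩ := ih (n / 2) (by omega) (by omega)
    have hm' : (X * ev (X : (ZMod 2)[X]) (n / 2)).Monic := monic_X.mul hm
    have hd' : (X * ev (X : (ZMod 2)[X]) (n / 2)).natDegree = d + 1 := by
      rw [natDegree_X_mul hm.ne_zero, hd]
    have hl : (((n % 2 : ℕ) : (ZMod 2)[X])).degree < (X * ev (X : (ZMod 2)[X]) (n / 2)).degree := by
      rw [degree_eq_natDegree hm'.ne_zero, hd']
      refine (degree_natCast_le _).trans_lt ?_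
      exact_mod_cast Nat.succ_pos d
    rw [ev_eq]
    exact ⟨hm'.add_of_right hl, by rw [natDegree_add_eq_right_of_degree_lt hl, hd']⟩

section Elim

variable {K : Type} [Field K]

/-- The coordinates of the first `q` vectors are proportional to the coded polynomials. -/
def Inv (a : K) (P Q : ℕ → K) (q : ℕ) (xs ys : List ℕ) : Prop :=
  ∃ s s' : K, s ≠ 0 ∧ s' ≠ 0 ∧
    ∀ u < q, s * P u = ev a (lin xs u) ∧ s' * Q u = ev a (lin ys u)

theorem step (h2 : (2 : K) = 0) (a : K) (P Q : ℕ → K) (hP : ∀ u v, P (u ^^^ v) = P u + P v)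
    (hQ : ∀ u v, Q (u ^^^ v) = Q u + Q v) (hP1 : P 1 = 1) (hQ4 : Q 4 = 1)
    (q : ℕ) (xs ys xs' ys' : List ℕ) (cx cy v u2 v2 : ℕ) (hq : 4 < q)
    (hv : v < q) (hu2 : u2 < q) (hv2 : v2 < q) (inv : Inv a P Q q xs ys)
    (r1 : P q * Q v + P v * Q q = 0) (r2 : P (q ^^^ u2) * Q v2 + P v2 * Q (q ^^^ u2) = 0)
    (ne : P v * Q v2 + P v2 * Q v ≠ 0)
    (chk : ∀ u < q,
      mul 0 0 (lin xs' u) cx = mul 0 0 (lin xs u) (det xs ys v v2) ∧
      mul 0 0 (lin ys' u) cy = mul 0 0 (lin ys u) (det xs ys v v2) ∧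
      mul 0 0 (lin xs' (q + u)) cx = mul 0 0 (lin xs u) (det xs ys v v2) ^^^
        mul 0 0 (det xs ys u2 v2) (lin xs v) ∧
      mul 0 0 (lin ys' (q + u)) cy = mul 0 0 (lin ys u) (det xs ys v v2) ^^^
        mul 0 0 (det xs ys u2 v2) (lin ys v) ∧ q + u = q ^^^ u) :
    Inv a P Q (q + q) xs' ys' := by
  obtain ⟨s, s', hs, hs', H⟩ := inv
  have M := ev_mul h2 a 0 0 (ev_zero a)
  have hd : ∀ u < q, ∀ w < q, ev a (det xs ys u w) = s * s' * (P u * Q w + P w * Q u) := by
    intro u hu w hw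
    rw [det, ev_xor h2, M, M, ← (H u hu).1, ← (H u hu).2, ← (H w hw).1, ← (H w hw).2]
    ring
  set D := ev a (det xs ys v v2) with hD
  set N := ev a (det xs ys u2 v2) with hN
  have eD := hd v hv v2 hv2
  have eN := hd u2 hu2 v2 hv2
  rw [← hD] at eD
  rw [← hN] at eN
  have D0 : D ≠ 0 := by rw [eD]; exact mul_ne_zero (mul_ne_zero hs hs') ne
  rw [hP, hQ] at r2
  have eP : P q * D = N * P v := by
    rw [eD, eN]
    linear_combination (s * s' * P v) * r2 + (s * s' * P v2) * r1 -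
      (s * s' * (P v * P u2 * Q v2 + P v * P v2 * Q u2 + P v * P v2 * Q q)) * h2
  have eQ : Q q * D = N * Q v := by
    rw [eD, eN]
    linear_combination (s * s' * Q v) * r2 + (s * s' * Q v2) * r1 -
      (s * s' * (Q v * P u2 * Q v2 + Q v * P v2 * Q u2 + Q v * Q v2 * P q)) * h2
  have cx0 : ev a cx ≠ 0 := by
    intro h
    have := congrArg (ev a) (chk 1 (by omega)).1
    rw [M, M, h, ← (H 1 (by omega)).1, hP1, ← hD, mul_zero, mul_one] at this
    exact mul_ne_zero hs D0 this.symm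
  have cy0 : ev a cy ≠ 0 := by
    intro h
    have := congrArg (ev a) (chk 4 hq).2.1
    rw [M, M, h, ← (H 4 hq).2, hQ4, ← hD, mul_zero, mul_one] at this
    exact mul_ne_zero hs' D0 this.symm
  refine ⟨s * D / ev a cx, s' * D / ev a cy, div_ne_zero (mul_ne_zero hs D0) cx0,
    div_ne_zero (mul_ne_zero hs' D0) cy0, fun u hu => ?_⟩
  by_cases h : u < q
  · have e1 := congrArg (ev a) (chk u h).1
    have e2 := congrArg (ev a) (chk u h).2.1
    rw [M, M, ← hD, ← (H u h).1] at e1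
    rw [M, M, ← hD, ← (H u h).2] at e2
    constructor
    · field_simp
      linear_combination -e1
    · field_simp
      linear_combination -e2
  · obtain ⟨w, rfl⟩ : ∃ w, u = q + w := ⟨u - q, by omega⟩
    have hw : w < q := by omega
    obtain ⟨-, -, c1, c2, c3⟩ := chk w hw
    have e1 := congrArg (ev a) c1
    have e2 := congrArg (ev a) c2
    rw [M, ev_xor h2, M, M, ← hD, ← hN, ← (H w hw).1, ← (H v hv).1] at e1
    rw [M, ev_xor h2, M, M, ← hD, ← hN, ← (H w hw).2, ← (H v hv).2] at e2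
    constructor
    · rw [show P (q + w) = P q + P w by rw [c3, hP]]
      field_simp
      linear_combination -e1 + s * eP
    · rw [show Q (q + w) = Q q + Q w by rw [c3, hQ]]
      field_simp
      linear_combination -e2 + s' * eQ

theorem no_root (h2 : (2 : K) = 0) (a : K) (ha : a ^ 2 ^ 21 = a) (f q i : ℕ)
    (hc : mul f q (sqn f q 21 2 ^^^ 2) i = 1) : ev a f ≠ 0 := by
  intro hf
  have := congrArg (ev a) hc
  rw [ev_mul h2 a f q hf, ev_xor h2, ev_sqn h2 a f q hf, ev_two, ha, ev_one, ← two_mul, h2] at this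
  simp at this

theorem elim (h2 : (2 : K) = 0) (hK : ∀ a : K, a ^ 2 ^ 21 = a) (P Q : ℕ → K)
    (hP : ∀ u v, P (u ^^^ v) = P u + P v) (hQ : ∀ u v, Q (u ^^^ v) = Q u + Q v)
    (hP1 : P 1 = 1) (hQ1 : Q 1 = 0) (hP4 : P 4 = 0) (hQ4 : Q 4 = 1)
    (dep : ∀ p ∈ [(1, 2), (8, 7), (8 ^^^ 3, 5), (16, 9), (16 ^^^ 12, 3), (32, 22), (32 ^^^ 25, 18),
      (64, 48), (64 ^^^ 42, 5), (128, 47), (128 ^^^ 59, 123), (128 ^^^ 81, 94)],
      P p.1 * Q p.2 + P p.2 * Q p.1 = 0)
    (ind : ∀ p ∈ [(7, 5), (9, 3), (22, 18), (48, 5)], P p.1 * Q p.2 + P p.2 * Q p.1 ≠ 0) :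
    False := by
  simp only [List.forall_mem_cons, List.not_mem_nil, false_imp_iff, implies_true,
    and_true] at dep ind
  obtain ⟨d0, d1, d2, d3, d4, d5, d6, d7, d8, d9, d10, d11⟩ := dep
  obtain ⟨n1, n2, n3, n4⟩ := ind
  have hQ2 : Q 2 = 0 := by
    rw [hP1, hQ1] at d0
    simpa using d0
  have hP0 : P 0 = 0 := by
    have := hP 0 0
    simpa using this
  have hQ0 : Q 0 = 0 := by
    have := hQ 0 0
    simpa using this
  set a := P 2 with ha
  have i3 : Inv a P Q 8 [1, 2] [0, 0, 1] := by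
    refine ⟨1, 1, one_ne_zero, one_ne_zero, fun u hu => ?_⟩
    have p3 : P 3 = P 1 + P 2 := hP 1 2
    have p5 : P 5 = P 1 + P 4 := hP 1 4
    have p6 : P 6 = P 2 + P 4 := hP 2 4
    have p7 : P 7 = P 3 + P 4 := hP 3 4
    have q3 : Q 3 = Q 1 + Q 2 := hQ 1 2
    have q5 : Q 5 = Q 1 + Q 4 := hQ 1 4
    have q6 : Q 6 = Q 2 + Q 4 := hQ 2 4
    have q7 : Q 7 = Q 3 + Q 4 := hQ 3 4
    have e3 : ev a 3 = 1 + a := by
      have := ev_xor h2 a 1 2
      rwa [ev_one, ev_two] at this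
    have l : ∀ u < 8, lin [1, 2] u = u % 4 ∧ lin [0, 0, 1] u = u / 4 := by decide
    rw [(l u hu).1, (l u hu).2]
    interval_cases u <;>
      simp [ev_zero, ev_one, ev_two, e3, p3, p5, p6, p7, q3, q5, q6, q7, hP0, hP1, hP4, hQ0, hQ1,
        hQ2, hQ4, ← ha]
  have i4 := step h2 a P Q hP hQ hP1 hQ4 8 _ _ [2, 4, 0, 5] [0, 0, 2, 3] 1 1 7 3 5
    (by norm_num) (by norm_num) (by norm_num) (by norm_num) i3 d1 d2 n1 (by decide +kernel)
  have i5 := step h2 a P Q hP hQ hP1 hQ4 16 _ _ [6, 12, 0, 15, 7] [0, 0, 2, 3, 1] 6 10 9 12 3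
    (by norm_num) (by norm_num) (by norm_num) (by norm_num) i4 d3 d4 n2 (by decide +kernel)
  have i6 := step h2 a P Q hP hQ hP1 hQ4 32 _ _ [6, 12, 0, 15, 7, 12] [0, 0, 22, 29, 11, 20]
    22 2 22 25 18
    (by norm_num) (by norm_num) (by norm_num) (by norm_num) i5 d5 d6 n3 (by decide +kernel)
  have i7 := step h2 a P Q hP hQ hP1 hQ4 64 _ _ [172, 344, 0, 270, 158, 344, 387]
    [0, 0, 908, 586, 454, 1000, 759] 4 4 48 42 5
    (by norm_num) (by norm_num) (by norm_num) (by norm_num) i6 d7 d8 n4 (by decide +kernel)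
  obtain ⟨s, s', hs, hs', H⟩ := i7
  set xs := [172, 344, 0, 270, 158, 344, 387] with hxs
  set ys := [0, 0, 908, 586, 454, 1000, 759] with hys
  have M := ev_mul h2 a 0 0 (ev_zero a)
  have hd : ∀ u < 128, ∀ w < 128, ev a (det xs ys u w) = s * s' * (P u * Q w + P w * Q u) := by
    intro u hu w hw
    rw [det, ev_xor h2, M, M, ← (H u hu).1, ← (H u hu).2, ← (H w hw).1, ← (H w hw).2]
    ring
  have c : mul 0 0 (mul 0 0 (det xs ys 59 123) (det xs ys 47 94) ^^^
      mul 0 0 (det xs ys 81 94) (det xs ys 47 123)) 1065232 =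
      mul 0 0 (mul 0 0 1669 3515) (mul 0 0 (det xs ys 1 4) (det xs ys 1 4)) := by
    rw [hxs, hys]
    decide +kernel
  have e := congrArg (ev a) c
  rw [M, ev_xor h2, M, M, M, M, M, hd _ (by norm_num) _ (by norm_num),
    hd _ (by norm_num) _ (by norm_num), hd _ (by norm_num) _ (by norm_num),
    hd _ (by norm_num) _ (by norm_num), hd _ (by norm_num) _ (by norm_num),
    hP1, hQ1, hP4, hQ4] at e
  rw [hP, hQ] at d10 d11
  have z : (P 59 * Q 123 + P 123 * Q 59) * (P 47 * Q 94 + P 94 * Q 47) +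
      (P 81 * Q 94 + P 94 * Q 81) * (P 47 * Q 123 + P 123 * Q 47) = 0 := by
    linear_combination (P 47 * Q 94 + P 94 * Q 47) * d10 + (P 47 * Q 123 + P 123 * Q 47) * d11 +
      (P 123 * Q 94 + P 94 * Q 123) * d9 -
      (P 128 * Q 123 * P 47 * Q 94 + P 128 * Q 123 * P 94 * Q 47 + P 123 * Q 128 * P 47 * Q 94 +
        P 123 * Q 128 * P 94 * Q 47 + P 128 * Q 94 * P 123 * Q 47 +
        P 94 * Q 128 * P 47 * Q 123) * h2
  have f1 := no_root h2 a (hK a) 1669 1024 318 (by decide +kernel)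
  have f2 := no_root h2 a (hK a) 3515 2048 1194 (by decide +kernel)
  have : ev a 1669 * ev a 3515 * (s * s') ^ 2 = 0 := by
    linear_combination -e + (s * s') ^ 2 * ev a 1065232 * z
  exact mul_ne_zero (mul_ne_zero f1 f2) (pow_ne_zero 2 (mul_ne_zero hs hs')) this

end Elim

end Pool.Agent.H312Z.Qm
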