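import Pool.Agent.H312Z.QmB

/-!
The matrix code, its shortened dimensions, and the non-representability.
-/

set_option autoImplicit false

namespace Pool.Agent.H312Z.Qm

open Module

/-- Coordinates on the coefficient ring. -/
noncomputable def co : RR ≃ₗ[ZMod 2] (Fin 21 → ZMod 2) :=
  (Module.finBasisOfFinrankEq (ZMod 2) RR finrank_RR).equivFun

/-- The encoding map. -/
noncomputable def enc : (RR × RR) →ₗ[ZMod 2] (Fin 8 → Fin 21 → ZMod 2) where
  toFun c i := co (c.1 * gx i + c.2 * gy i)
  map_add' c d := by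
    funext i
    rw [Pi.add_apply, ← map_add]
    congr 1
    simp only [Prod.fst_add, Prod.snd_add]
    ring
  map_smul' a c := by
    funext i
    rw [Pi.smul_apply, RingHom.id_apply, ← map_smul]
    congr 1
    simp only [Prod.smul_fst, Prod.smul_snd, smul_add, smul_mul_assoc]

theorem enc_sum (c : RR × RR) (v : Fin 8 → ZMod 2) :
    ∑ i, v i • enc c i = co (c.1 * XX v + c.2 * YY v) := by
  have : ∀ i, enc c i = co (c.1 * gx i + c.2 * gy i) := fun _ => rfl
  simp only [this, ← map_smul, ← map_sum, XX, YY, Finset.mul_sum, ← Finset.sum_add_distrib,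
    smul_add, mul_smul_comm]

/-- The annihilator of a subspace. -/
def ann (V : Submodule (ZMod 2) (Fin 8 → ZMod 2)) : Submodule (ZMod 2) (RR × RR) where
  carrier := {c | ∀ v ∈ V, c.1 * XX v + c.2 * YY v = 0}
  add_mem' := by
    intro a b ha hb v hv
    simp only [Prod.fst_add, Prod.snd_add]
    linear_combination ha v hv + hb v hv
  zero_mem' := by
    intro v _
    simp
  smul_mem' := by
    intro a c hc v hv
    simp only [Prod.smul_fst, Prod.smul_snd, smul_mul_assoc, ← smul_add, hc v hv, smul_zero]

theorem zero_of_unit {c : RR × RR} {u v : Fin 8 → ZMod 2} (h : IsUnit (DD u v))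
    (hu : c.1 * XX u + c.2 * YY u = 0) (hv : c.1 * XX v + c.2 * YY v = 0) : c = 0 := by
  ext1
  · apply h.mul_right_cancel
    rw [DD]
    simp only [Prod.fst_zero]
    linear_combination YY v * hu - YY u * hv
  · apply h.mul_right_cancel
    rw [DD]
    simp only [Prod.snd_zero]
    linear_combination XX u * hv - XX v * hu

theorem u14 : IsUnit (DD (vec 1) (vec 4)) :=
  DD_unit 1 4 (by norm_num) (by norm_num) (by norm_num) (by norm_num) (by decide +kernel)

theorem enc_inj : Function.Injective enc := by
  rw [injective_iff_map_eq_zero]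
  intro c hc
  have : ∀ v, c.1 * XX v + c.2 * YY v = 0 := by
    intro v
    apply co.injective
    rw [← enc_sum, hc]
    simp
  exact zero_of_unit u14 (this _) (this _)

theorem ann_two {V : Submodule (ZMod 2) (Fin 8 → ZMod 2)} {u v : Fin 8 → ZMod 2} (hu : u ∈ V)
    (hv : v ∈ V) (h : IsUnit (DD u v)) : finrank (ZMod 2) (ann V) = 0 := by
  have : ann V = ⊥ := by
    rw [eq_bot_iff]
    intro c hc
    exact zero_of_unit h (hc u hu) (hc v hv)
  rw [this, finrank_bot]

theorem ann_one {V : Submodule (ZMod 2) (Fin 8 → ZMod 2)} {u : Fin 8 → ZMod 2} (hu : u ∈ V)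
    (h0 : u ≠ 0) (h : ∀ v ∈ V, DD u v = 0) : finrank (ZMod 2) (ann V) = 21 := by
  let φ : RR →ₗ[ZMod 2] RR × RR :=
    (LinearMap.mulRight (ZMod 2) (YY u)).prod (LinearMap.mulRight (ZMod 2) (-XX u))
  have hφ : ∀ r, φ r = (r * YY u, r * -XX u) := fun _ => rfl
  have hY := YY_unit u h0
  have inj : Function.Injective φ := by
    intro r s e
    rw [hφ, hφ] at e
    exact hY.mul_right_cancel (congrArg Prod.fst e)
  have : ann V = LinearMap.range φ := by
    ext c
    constructor
    · intro hc
      obtain ⟨y, hy⟩ := hY.exists_right_inv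
      refine ⟨c.1 * y, ?_⟩
      rw [hφ]
      ext1
      · simp only
        linear_combination c.1 * hy
      · simp only
        linear_combination -y * hc u hu + c.2 * hy
    · rintro ⟨r, rfl⟩ v hv
      have := h v hv
      rw [DD] at this
      rw [hφ]
      simp only
      linear_combination -r * this
  rw [this, LinearMap.finrank_range_of_inj inj, finrank_RR]

theorem finrank_two : finrank (ZMod 2) (RR × RR) = 42 := by
  rw [finrank_prod, finrank_RR]

theorem ann_dvd (V : Submodule (ZMod 2) (Fin 8 → ZMod 2)) : 21 ∣ finrank (ZMod 2) (ann V) := by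
  by_cases h0 : ∃ u ∈ V, u ≠ 0
  · obtain ⟨u, hu, hu0⟩ := h0
    by_cases h1 : ∀ v ∈ V, DD u v = 0
    · rw [ann_one hu hu0 h1]
    · push Not at h1
      obtain ⟨v, hv, h⟩ := h1
      rw [ann_two hu hv ((DD_cases u v).resolve_left h)]
      exact dvd_zero _
  · push Not at h0
    have : ann V = ⊤ := by
      rw [eq_top_iff]
      intro c _ v hv
      simp [h0 v hv, XX, YY]
    rw [this, finrank_top, finrank_two]
    norm_num

/-- The orthogonal complement, in the form of the statement. -/
def perp (V : Submodule (ZMod 2) (Fin 8 → ZMod 2)) : Submodule (ZMod 2) (Fin 8 → ZMod 2) :=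
  ⨅ (v : Fin 8 → ZMod 2) (_ : v ∈ V), LinearMap.ker
    (∑ i : Fin 8, v i • (LinearMap.proj i : (Fin 8 → ZMod 2) →ₗ[ZMod 2] ZMod 2))

theorem mem_perp (V : Submodule (ZMod 2) (Fin 8 → ZMod 2)) (z : Fin 8 → ZMod 2) :
    z ∈ perp V ↔ ∀ v ∈ V, ∑ i, v i * z i = 0 := by
  simp [perp, Submodule.mem_iInf, LinearMap.mem_ker, LinearMap.sum_apply]

theorem perp_perp (W : Submodule (ZMod 2) (Fin 8 → ZMod 2)) : perp (perp W) = W := by
  ext z
  rw [mem_perp]
  constructor
  · intro h
    by_contra hz
    obtain ⟨φ, h1, h2⟩ := W.exists_dual_map_eq_bot_of_notMem hz inferInstance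
    have e : ∀ w : Fin 8 → ZMod 2, φ w = ∑ i, w i * φ (Pi.single i 1) := by
      intro w
      rw [LinearMap.pi_apply_eq_sum_univ φ w]
      refine Finset.sum_congr rfl fun i _ => ?_
      rw [smul_eq_mul]
      congr 2
      funext j
      simp [Pi.single_apply, eq_comm]
    apply h1
    rw [e, ← h (fun i => φ (Pi.single i 1))]
    · simp only [mul_comm]
    · rw [mem_perp]
      intro w hw
      rw [← e]
      have : φ w ∈ W.map φ := Submodule.mem_map_of_mem hw
      rwa [h2, Submodule.mem_bot] at this
  · intro hz v hv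
    rw [mem_perp] at hv
    simpa only [mul_comm] using hv z hz

/-- The matrices all of whose columns lie in a subspace. -/
def cols (W : Submodule (ZMod 2) (Fin 8 → ZMod 2)) :
    Submodule (ZMod 2) (Fin 8 → Fin 21 → ZMod 2) :=
  ⨅ j : Fin 21, Submodule.comap
    (LinearMap.pi (fun i : Fin 8 =>
      LinearMap.comp (LinearMap.proj j : (Fin 21 → ZMod 2) →ₗ[ZMod 2] ZMod 2)
        (LinearMap.proj i : (Fin 8 → Fin 21 → ZMod 2) →ₗ[ZMod 2] (Fin 21 → ZMod 2)))) W

theorem short (V : Submodule (ZMod 2) (Fin 8 → ZMod 2)) :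
    finrank (ZMod 2) ↥(LinearMap.range enc ⊓ cols (perp V)) = finrank (ZMod 2) (ann V) := by
  have key : ∀ c, enc c ∈ cols (perp V) ↔ c ∈ ann V := by
    intro c
    have e : ∀ (v : Fin 8 → ZMod 2) (j : Fin 21),
        ∑ i, v i * enc c i j = co (c.1 * XX v + c.2 * YY v) j := by
      intro v j
      rw [← enc_sum, Finset.sum_apply]
      rfl
    simp only [cols, Submodule.mem_iInf, Submodule.mem_comap, mem_perp, LinearMap.pi_apply,
      LinearMap.comp_apply, LinearMap.proj_apply, e]
    constructor
    · intro h v hv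
      apply co.injective
      rw [map_zero]
      funext j
      exact h j v hv
    · intro h j v hv
      rw [h v hv, map_zero]
      rfl
  have : LinearMap.range enc ⊓ cols (perp V) = (ann V).map enc := by
    ext M
    constructor
    · rintro ⟨⟨c, rfl⟩, h⟩
      exact ⟨c, (key c).1 h, rfl⟩
    · rintro ⟨c, hc, rfl⟩
      exact ⟨⟨c, rfl⟩, (key c).2 hc⟩
  rw [this]
  exact ((ann V).equivMapOfInjective enc enc_inj).finrank_eq.symm

theorem finrank_code : finrank (ZMod 2) (LinearMap.range enc) = 42 := by
  rw [LinearMap.finrank_range_of_inj enc_inj, finrank_two]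

section Plane

variable {K E : Type} [Field K] [AddCommGroup E] [Module K E]

theorem span_le_one (p q : E) (a b : K) (hab : a ≠ 0 ∨ b ≠ 0) (h : a • p + b • q = 0) :
    finrank K (Submodule.span K {p, q}) ≤ 1 := by
  have one : ∀ r : E, finrank K (Submodule.span K {r}) ≤ 1 := fun r => by
    simpa using finrank_span_le_card (R := K) ({r} : Set E)
  rcases hab with ha | hb
  · have : p ∈ Submodule.span K {q} := Submodule.mem_span_singleton.2 ⟨-(a⁻¹ * b), by
      have : p = a⁻¹ • (a • p) := by rw [smul_smul, inv_mul_cancel₀ ha, one_smul]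
      rw [this, eq_neg_of_add_eq_zero_left h, smul_neg, smul_smul, neg_smul]⟩
    rw [Submodule.span_insert_eq_span this]
    exact one q
  · have : q ∈ Submodule.span K {p} := Submodule.mem_span_singleton.2 ⟨-(b⁻¹ * a), by
      have : q = b⁻¹ • (b • q) := by rw [smul_smul, inv_mul_cancel₀ hb, one_smul]
      rw [this, eq_neg_of_add_eq_zero_right h, smul_neg, smul_smul, neg_smul]⟩
    rw [Set.pair_comm, Submodule.span_insert_eq_span this]
    exact one p

theorem le_one_of_det (g h : E) (x y x' y' : K) (e : x * y' = x' * y) :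
    finrank K (Submodule.span K {x • g + y • h, x' • g + y' • h}) ≤ 1 := by
  by_cases h1 : y' ≠ 0 ∨ -y ≠ 0
  · refine span_le_one _ _ y' (-y) h1 ?_
    linear_combination (norm := module) e • g
  by_cases h2 : x' ≠ 0 ∨ -x ≠ 0
  · refine span_le_one _ _ x' (-x) h2 ?_
    linear_combination (norm := module) (-e) • h
  push Not at h1 h2
  refine span_le_one _ _ 0 1 (Or.inr one_ne_zero) ?_
  simp [h1.1, h2.1]

theorem span_le_of_det (g h : E) (x y x' y' : K) (e : x * y' ≠ x' * y) :
    Submodule.span K {g, h} ≤ Submodule.span K {x • g + y • h, x' • g + y' • h} := by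
  have d : x * y' - x' * y ≠ 0 := sub_ne_zero.2 e
  have hi := mul_inv_cancel₀ d
  set i := (x * y' - x' * y)⁻¹
  rw [Submodule.span_le]
  rintro z (rfl | rfl)
  · refine Submodule.mem_span_pair.2 ⟨y' * i, -y * i, ?_⟩
    linear_combination (norm := module) hi • z
  · refine Submodule.mem_span_pair.2 ⟨-x' * i, x * i, ?_⟩
    linear_combination (norm := module) hi • z

end Plane

theorem not_rep {K E : Type} [Field K] [Algebra (ZMod 2) K] [AddCommGroup E] [Module K E]
    [Module.Finite K E] (hK : ∀ a : K, a ^ 2 ^ 21 = a) (w : (Fin 8 → ZMod 2) → E)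
    (hw : ∀ u v, w (u + v) = w u + w v)
    (H : ∀ V : Submodule (ZMod 2) (Fin 8 → ZMod 2),
      21 * finrank K (Submodule.span K (w '' (V : Set (Fin 8 → ZMod 2)))) =
        42 - finrank (ZMod 2) (ann V)) : False := by
  have w0 : w 0 = 0 := by
    have := hw 0 0
    simpa using this
  have sp : ∀ u v, Submodule.span K (w '' (Submodule.span (ZMod 2) {u, v} :
      Submodule (ZMod 2) (Fin 8 → ZMod 2))) = Submodule.span K {w u, w v} := by
    intro u v
    apply le_antisymm
    · rw [Submodule.span_le]
      rintro _ ⟨z, hz, rfl⟩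
      obtain ⟨a, b, rfl⟩ := Submodule.mem_span_pair.1 hz
      have h1 : w u ∈ Submodule.span K {w u, w v} := Submodule.subset_span (by simp)
      have h2 : w v ∈ Submodule.span K {w u, w v} := Submodule.subset_span (by simp)
      have c : ∀ c : ZMod 2, c = 0 ∨ c = 1 := by decide
      rw [hw]
      apply Submodule.add_mem
      · rcases c a with rfl | rfl
        · simp [w0]
        · simpa using h1
      · rcases c b with rfl | rfl
        · simp [w0]
        · simpa using h2
    · apply Submodule.span_mono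
      rintro z (rfl | rfl)
      · exact ⟨u, Submodule.subset_span (by simp), rfl⟩
      · exact ⟨v, Submodule.subset_span (by simp), rfl⟩
  have two : ∀ u v, IsUnit (DD u v) → finrank K (Submodule.span K {w u, w v}) = 2 := by
    intro u v h
    have := H (Submodule.span (ZMod 2) {u, v})
    rw [sp, ann_two (Submodule.subset_span (by simp)) (Submodule.subset_span (by simp)) h] at this
    omega
  have one : ∀ u v, u ≠ 0 → DD u v = 0 → finrank K (Submodule.span K {w u, w v}) = 1 := by
    intro u v h0 h
    have := H (Submodule.span (ZMod 2) {u, v})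
    rw [sp, ann_one (u := u) (Submodule.subset_span (by simp)) h0] at this
    · omega
    · intro z hz
      obtain ⟨a, b, rfl⟩ := Submodule.mem_span_pair.1 hz
      have e1 : XX (a • u + b • v) = a • XX u + b • XX v := by
        simp [XX, add_smul, Finset.sum_add_distrib, Finset.smul_sum, smul_smul]
      have e2 : YY (a • u + b • v) = a • YY u + b • YY v := by
        simp [YY, add_smul, Finset.sum_add_distrib, Finset.smul_sum, smul_smul]
      rw [DD] at h ⊢
      rw [e1, e2]
      simp only [Algebra.smul_def]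
      linear_combination algebraMap (ZMod 2) RR b * h
  set g := w (vec 1) with hg
  set h := w (vec 4) with hh
  have gh : finrank K (Submodule.span K {g, h}) = 2 := two _ _ u14
  have top : Submodule.span K {g, h} =
      Submodule.span K (w '' (⊤ : Submodule (ZMod 2) (Fin 8 → ZMod 2))) := by
    apply Submodule.eq_of_le_of_finrank_eq
    · apply Submodule.span_mono
      rintro z (rfl | rfl)
      · exact ⟨_, trivial, rfl⟩
      · exact ⟨_, trivial, rfl⟩
    · have := H ⊤
      rw [ann_two (V := ⊤) trivial trivial u14] at this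
      omega
  have ex : ∀ u : ℕ, ∃ a b : K, a • g + b • h = w (vec u) := by
    intro u
    apply Submodule.mem_span_pair.1
    rw [top]
    exact Submodule.subset_span ⟨_, trivial, rfl⟩
  choose P Q hPQ using ex
  have uniq : ∀ a b a' b' : K, a • g + b • h = a' • g + b' • h → a = a' ∧ b = b' := by
    intro a b a' b' e
    by_contra hne
    have := span_le_one g h (a - a') (b - b') (by
      rw [sub_ne_zero, sub_ne_zero]
      tauto) (by linear_combination (norm := module) e)
    omega
  have add : ∀ u v, P (u ^^^ v) = P u + P v ∧ Q (u ^^^ v) = Q u + Q v := by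
    intro u v
    apply uniq
    rw [hPQ, vec_xor, hw, ← hPQ, ← hPQ]
    module
  have e1 : P 1 = 1 ∧ Q 1 = 0 := uniq _ _ _ _ (by rw [hPQ]; simp [hg])
  have e4 : P 4 = 0 ∧ Q 4 = 1 := uniq _ _ _ _ (by rw [hPQ]; simp [hh])
  have h2 := two_zero K
  have vne : ∀ u < 256, u ≠ 0 → vec u ≠ 0 := by
    intro u hu h0 e
    have := (facts u hu h0).2.1
    rw [e] at this
    have h3 : IsUnit (0 : RR) := by simpa [YY] using this
    have h4 : Subsingleton RR := subsingleton_of_zero_eq_one (isUnit_zero_iff.1 h3)
    have h5 := finrank_RR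
    rw [finrank_zero_of_subsingleton] at h5
    omega
  have dep : ∀ u v : ℕ, (u < 256 ∧ u ≠ 0 ∧ v < 256 ∧ v ≠ 0 ∧ tb u = tb v) →
      P u * Q v + P v * Q u = 0 := by
    rintro u v ⟨a1, a2, a3, a4, a5⟩
    have o := one _ _ (vne u a1 a2) (DD_zero u v a1 a2 a3 a4 a5)
    by_contra hne
    have hne' : P u * Q v ≠ P v * Q u := fun e => hne (by linear_combination e + P v * Q u * h2)
    have := Submodule.finrank_mono (span_le_of_det g h _ _ _ _ hne')
    rw [hPQ, hPQ] at this
    omega
  have ind : ∀ u v : ℕ, (u < 256 ∧ u ≠ 0 ∧ v < 256 ∧ v ≠ 0 ∧ tb u ≠ tb v) →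
      P u * Q v + P v * Q u ≠ 0 := by
    rintro u v ⟨a1, a2, a3, a4, a5⟩ e
    have o := two _ _ (DD_unit u v a1 a2 a3 a4 a5)
    have := le_one_of_det g h (P u) (Q u) (P v) (Q v) (by linear_combination e - P v * Q u * h2)
    rw [hPQ, hPQ] at this
    omega
  refine elim h2 hK P Q (fun u v => (add u v).1) (fun u v => (add u v).2) e1.1 e1.2 e4.1 e4.2
    (fun p hp => dep _ _ ?_) (fun p hp => ind _ _ ?_)
  · revert p
    decide +kernel
  · revert p
    decide +kernel

end Pool.Agent.H312Z.Qm
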